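import Pool.Agent.GridW.Cplx

/-!
# The tree 3-spanner problem, 3-SAT, and the reduction
-/

namespace Pool.Agent.H17T3S

open Pool.Agent.TM2Lib Pool.Agent.GridW

/-! ### 3-SAT -/

/-- A literal: a variable and a sign; `(z, s)` is true under `τ` if `τ z = s`. -/
abbrev Lit : Type := ℕ × Bool

/-- A clause with three literals (repetitions are allowed). -/
abbrev Cl : Type := Lit × Lit × Lit

/-- A 3-CNF formula. -/
abbrev CNF3 : Type := List Cl

/-- `τ` makes a literal of `c` true. -/
def Holds (τ : ℕ → Bool) (c : Cl) : Prop :=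
  τ c.1.1 = c.1.2 ∨ τ c.2.1.1 = c.2.1.2 ∨ τ c.2.2.1 = c.2.2.2

/-- satisfiability -/
def Satisfiable (φ : CNF3) : Prop := ∃ τ : ℕ → Bool, ∀ c ∈ φ, Holds τ c

/-- 3-SAT -/
def SAT3 : DecProb := ⟨CNF3, code, Satisfiable⟩

/-! ### the tree `t`-spanner problem -/

/-- Finite graphs with vertex set `{0, …, n-1}`. -/
abbrev Graph : Type := Σ n : ℕ, SimpleGraph (Fin n)

open Classical in
/-- The adjacency lists of a graph. -/
noncomputable def adjLists (G : Graph) : List (List ℕ) :=
  (List.finRange G.1).map fun v =>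
    ((List.finRange G.1).filter fun u => decide (G.2.Adj v u)).map Fin.val

/-- A graph is coded by its adjacency lists. -/
noncomputable instance : Enc Graph := ⟨fun G => Enc.enc (adjLists G)⟩

/-- `T` is a spanning tree of `G` with stretch factor at most `t`. -/
def IsTreeSpanner {V : Type*} (t : ℕ) (G T : SimpleGraph V) : Prop :=
  T ≤ G ∧ T.IsTree ∧ ∀ u v, T.dist u v ≤ t * G.dist u v

/-- The tree `t`-spanner problem; instances are finite connected graphs. -/
noncomputable def TreeSpanner (t : ℕ) : DecProb :=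
  ⟨{G : Graph // G.2.Connected}, code, fun G => ∃ T, IsTreeSpanner t G.1.2 T⟩

/-! ### the graph of a formula -/

/-- Names of vertices: the centre; the vertices of the variables; the vertices of the clauses. -/
inductive Nm : Type
  | x : Nm
  | L (l : Lit) : Nm
  | W (l : Lit) : Nm
  | a (c : Cl) (i : Fin 3) : Nm
  | d (c : Cl) (i : Fin 3) : Nm
  | b (c : Cl) (i : Fin 3) : Nm
  | t (c : Cl) (i : Fin 3) : Nm
deriving DecidableEq

/-- the `i`-th literal of a clause -/
def Cl.lit (c : Cl) (i : Fin 3) : Lit := if i = 0 then c.1 else if i = 1 then c.2.1 else c.2.2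

/-- oriented edges between names -/
def Nm.arc : Nm → Nm → Bool
  | .x, .L _ => true
  | .x, .a _ _ => true
  | .x, .b _ _ => true
  | .L l, .L l' => decide (l.1 = l'.1 ∧ l.2 ≠ l'.2)
  | .L l, .W l' => decide (l = l')
  | .W l, .W l' => decide (l.1 = l'.1 ∧ l.2 ≠ l'.2)
  | .a c i, .a c' j => decide (c = c' ∧ i ≠ j)
  | .a c i, .d c' j => decide (c = c' ∧ i = j)
  | .a c i, .b c' j => decide (c = c' ∧ i = j)
  | .d c i, .d c' j => decide (c = c' ∧ i ≠ j)
  | .b c i, .t c' j => decide (c = c' ∧ i = j)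
  | .b c i, .L l => decide (c.lit i = l)
  | .t c i, .a c' j => decide (c = c' ∧ i ≠ j)
  | _, _ => false

/-- adjacency of names -/
def Nm.adj (u v : Nm) : Bool := u.arc v || v.arc u

/-- the infinite graph of all names -/
def NG : SimpleGraph Nm where
  Adj u v := u.adj v = true
  symm := ⟨fun u v h => by rw [Nm.adj, Bool.or_comm]; exact h⟩
  loopless := ⟨fun u h => by
    cases u <;> simp [Nm.adj, Nm.arc] at h⟩

/-- the variables of a formula -/
def vars (φ : CNF3) : List ℕ := (φ.flatMap fun c => [c.1.1, c.2.1.1, c.2.2.1]).dedup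

/-- the vertices of the graph of `φ` -/
def verts (φ : CNF3) : List Nm :=
  Nm.x :: ((vars φ).flatMap (fun z => [.L (z, true), .L (z, false), .W (z, true), .W (z, false)]) ++
    φ.dedup.flatMap (fun c => [.a c 0, .a c 1, .a c 2, .d c 0, .d c 1, .d c 2, .b c 0, .b c 1,
      .b c 2, .t c 0, .t c 1, .t c 2]))

/-- the graph of `φ` -/
def gr (φ : CNF3) : Graph := ⟨(verts φ).length, NG.comap (verts φ).get⟩

end Pool.Agent.H17T3S
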