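import Pool.Agent.helper17.T3S.Suff

/-!
# A tree 3-spanner gives a satisfying assignment
-/

namespace Pool.Agent.H17T3S

open SimpleGraph

section
variable {φ : CNF3}

theorem clause_gadget {c : Cl} (hc : c ∈ φ) :
    Clause (GG φ) (ix φ .x) (fun i => ix φ (.a c i)) (fun i => ix φ (.d c i))
      (fun i => ix φ (.b c i)) (fun i => ix φ (.t c i)) (fun i => ix φ (.L (c.lit i))) := by
  have hx : (Nm.x).In φ := trivial
  have ha : ∀ i, (Nm.a c i).In φ := fun _ => hc
  have hd : ∀ i, (Nm.d c i).In φ := fun _ => hc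
  have hb : ∀ i, (Nm.b c i).In φ := fun _ => hc
  have ht : ∀ i, (Nm.t c i).In φ := fun _ => hc
  have hL : ∀ i, (Nm.L (c.lit i)).In φ := fun i => lit_mem hc i
  have hdn : ∀ i y, (GG φ).Adj (ix φ (.d c i)) y →
      y = ix φ (.a c i) ∨ ∃ j, j ≠ i ∧ y = ix φ (.d c j) := by
    intro i y h
    rw [adj_nm, nm_ix (hd i)] at h
    rcases hn : nm φ y with _ | l | l | ⟨c', j⟩ | ⟨c', j⟩ | ⟨c', j⟩ | ⟨c', j⟩ <;>
      rw [hn] at h <;> simp [Nm.adj, Nm.arc] at h
    · obtain ⟨rfl, rfl⟩ := h
      exact Or.inl (eq_ix hn)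
    · right
      refine ⟨j, ?_, ?_⟩
      · rcases h with h | h
        · exact fun e => h.2 e.symm
        · exact h.2
      · have : c' = c := by
          rcases h with h | h
          · exact h.1.symm
          · exact h.1
        subst this
        exact eq_ix hn
  exact {
    pr := {
      na := ⟨ix_ne (ha _) (ha _) (by simp), ix_ne (ha _) (ha _) (by simp),
        ix_ne (ha _) (ha _) (by simp)⟩
      nd := ⟨ix_ne (hd _) (hd _) (by simp), ix_ne (hd _) (hd _) (by simp),
        ix_ne (hd _) (hd _) (by simp)⟩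
      nad := ⟨⟨ix_ne (ha _) (hd _) (by simp), ix_ne (ha _) (hd _) (by simp),
        ix_ne (ha _) (hd _) (by simp)⟩, ⟨ix_ne (ha _) (hd _) (by simp),
        ix_ne (ha _) (hd _) (by simp), ix_ne (ha _) (hd _) (by simp)⟩,
        ix_ne (ha _) (hd _) (by simp), ix_ne (ha _) (hd _) (by simp),
        ix_ne (ha _) (hd _) (by simp)⟩
      aa := ⟨(adj_ix (ha _) (ha _)).2 (by simp [Nm.adj, Nm.arc]),
        (adj_ix (ha _) (ha _)).2 (by simp [Nm.adj, Nm.arc]),
        (adj_ix (ha _) (ha _)).2 (by simp [Nm.adj, Nm.arc])⟩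
      dd := ⟨(adj_ix (hd _) (hd _)).2 (by simp [Nm.adj, Nm.arc]),
        (adj_ix (hd _) (hd _)).2 (by simp [Nm.adj, Nm.arc]),
        (adj_ix (hd _) (hd _)).2 (by simp [Nm.adj, Nm.arc])⟩
      ad := ⟨(adj_ix (ha _) (hd _)).2 (by simp [Nm.adj, Nm.arc]),
        (adj_ix (ha _) (hd _)).2 (by simp [Nm.adj, Nm.arc]),
        (adj_ix (ha _) (hd _)).2 (by simp [Nm.adj, Nm.arc])⟩
      n0 := by
        intro y h
        rcases hdn 0 y h with e | ⟨j, hj, e⟩
        · exact Or.inl e
        · fin_cases j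
          · exact absurd rfl hj
          · exact Or.inr (Or.inl e)
          · exact Or.inr (Or.inr e)
      n1 := by
        intro y h
        rcases hdn 1 y h with e | ⟨j, hj, e⟩
        · exact Or.inl e
        · fin_cases j
          · exact Or.inr (Or.inl e)
          · exact absurd rfl hj
          · exact Or.inr (Or.inr e)
      n2 := by
        intro y h
        rcases hdn 2 y h with e | ⟨j, hj, e⟩
        · exact Or.inl e
        · fin_cases j
          · exact Or.inr (Or.inl e)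
          · exact Or.inr (Or.inr e)
          · exact absurd rfl hj }
    xa := fun i => (adj_ix hx (ha _)).2 (by simp [Nm.adj, Nm.arc])
    xb := fun i => (adj_ix hx (hb _)).2 (by simp [Nm.adj, Nm.arc])
    ab := fun i => (adj_ix (ha _) (hb _)).2 (by simp [Nm.adj, Nm.arc])
    bt := fun i => (adj_ix (hb _) (ht _)).2 (by simp [Nm.adj, Nm.arc])
    bL := fun i => (adj_ix (hb _) (hL _)).2 (by simp [Nm.adj, Nm.arc])
    ta := fun i j hij => (adj_ix (ht _) (ha _)).2 (by simp [Nm.adj, Nm.arc, hij.symm])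
    na := by
      intro i y h
      rw [adj_nm, nm_ix (ha i)] at h
      rcases hn : nm φ y with _ | l | l | ⟨c', j⟩ | ⟨c', j⟩ | ⟨c', j⟩ | ⟨c', j⟩ <;>
        rw [hn] at h <;> simp [Nm.adj, Nm.arc] at h
      · exact Or.inl (eq_ix hn)
      · right; left
        refine ⟨j, ?_, ?_⟩
        · rcases h with h | h
          · exact fun e => h.2 e.symm
          · exact h.2
        · have : c' = c := by
            rcases h with h | h
            · exact h.1.symm
            · exact h.1
          subst this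
          exact eq_ix hn
      · obtain ⟨rfl, rfl⟩ := h
        exact Or.inr (Or.inr (Or.inl (eq_ix hn)))
      · obtain ⟨rfl, rfl⟩ := h
        exact Or.inr (Or.inr (Or.inr (Or.inl (eq_ix hn))))
      · obtain ⟨rfl, hj⟩ := h
        exact Or.inr (Or.inr (Or.inr (Or.inr ⟨j, hj, eq_ix hn⟩)))
    nb := by
      intro i y h
      rw [adj_nm, nm_ix (hb i)] at h
      rcases hn : nm φ y with _ | l | l | ⟨c', j⟩ | ⟨c', j⟩ | ⟨c', j⟩ | ⟨c', j⟩ <;>
        rw [hn] at h <;> simp [Nm.adj, Nm.arc] at h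
      · exact Or.inl (eq_ix hn)
      · subst h
        exact Or.inr (Or.inr (Or.inr (eq_ix hn)))
      · obtain ⟨rfl, rfl⟩ := h
        exact Or.inr (Or.inl (eq_ix hn))
      · obtain ⟨rfl, rfl⟩ := h
        exact Or.inr (Or.inr (Or.inl (eq_ix hn)))
    nt := by
      intro i y h
      rw [adj_nm, nm_ix (ht i)] at h
      rcases hn : nm φ y with _ | l | l | ⟨c', j⟩ | ⟨c', j⟩ | ⟨c', j⟩ | ⟨c', j⟩ <;>
        rw [hn] at h <;> simp [Nm.adj, Nm.arc] at h
      · obtain ⟨rfl, hj⟩ := h
        exact Or.inr ⟨j, fun e => hj e.symm, eq_ix hn⟩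
      · obtain ⟨rfl, rfl⟩ := h
        exact Or.inl (eq_ix hn)
    nLa := fun i j h => by
      rw [adj_ix (hL _) (ha _)] at h
      simp [Nm.adj, Nm.arc] at h
    nLd := fun i j h => by
      rw [adj_ix (hL _) (hd _)] at h
      simp [Nm.adj, Nm.arc] at h
    nLt := fun i j h => by
      rw [adj_ix (hL _) (ht _)] at h
      simp [Nm.adj, Nm.arc] at h
    aa := fun i j h => ix_ne (ha _) (ha _) (by simp [h])
    ab' := fun i j => ix_ne (ha _) (hb _) (by simp)
    at' := fun i j => ix_ne (ha _) (ht _) (by simp)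
    aL' := fun i j => ix_ne (ha _) (hL _) (by simp)
    bt' := fun i j => ix_ne (hb _) (ht _) (by simp)
    xt' := fun i => ix_ne hx (ht _) (by simp) }

theorem var_gadget {l : Lit} (hl : l.1 ∈ vars φ) :
    Var (GG φ) (ix φ .x) (ix φ (.L l)) (ix φ (.L l.neg)) (ix φ (.W l)) (ix φ (.W l.neg)) := by
  have hx : (Nm.x).In φ := trivial
  have hL : (Nm.L l).In φ := hl
  have hM : (Nm.L l.neg).In φ := hl
  have hW : (Nm.W l).In φ := hl
  have hW' : (Nm.W l.neg).In φ := hl
  have hne : l ≠ l.neg := by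
    obtain ⟨z, s⟩ := l
    cases s <;> simp [Lit.neg]
  have hWn : ∀ (l : Lit), l.1 ∈ vars φ → ∀ y, (GG φ).Adj (ix φ (.W l)) y →
      y = ix φ (.L l) ∨ y = ix φ (.W l.neg) := by
    intro l hl y h
    rw [adj_nm, nm_ix (v := .W l) hl] at h
    rcases hn : nm φ y with _ | l' | l' | ⟨c', j⟩ | ⟨c', j⟩ | ⟨c', j⟩ | ⟨c', j⟩ <;>
      rw [hn] at h <;> simp [Nm.adj, Nm.arc] at h
    · subst h
      exact Or.inl (eq_ix hn)
    · right
      have : l' = l.neg := by
        rcases h with h | h
        · exact eq_neg ⟨h.1, by simpa using h.2⟩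
        · have := eq_neg (l := l') (l' := l) ⟨h.1, by simpa using h.2⟩
          rw [this, neg_neg]
      subst this
      exact eq_ix hn
  exact {
    xL := (adj_ix hx hL).2 (by simp [Nm.adj, Nm.arc])
    xM := (adj_ix hx hM).2 (by simp [Nm.adj, Nm.arc])
    LM := (adj_ix hL hM).2 (by simp [Nm.adj, Nm.arc, Lit.neg])
    Lw := (adj_ix hL hW).2 (by simp [Nm.adj, Nm.arc])
    ww := (adj_ix hW hW').2 (by simp [Nm.adj, Nm.arc, Lit.neg])
    wM := (adj_ix hW' hM).2 (by simp [Nm.adj, Nm.arc])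
    nw := hWn l hl
    nw' := fun y h => by
      rcases hWn l.neg hl y h with e | e
      · exact Or.inr e
      · rw [neg_neg] at e
        exact Or.inl e
    xw := ix_ne hx hW (by simp)
    Lw' := ix_ne hL hW' (by simp)
    wM' := ix_ne hW hM (by simp) }

theorem satisfiable_of_spanner {T : SimpleGraph (Fin (gr φ).1)}
    (h : IsTreeSpanner 3 (gr φ).2 T) : Satisfiable φ := by
  classical
  obtain ⟨hle, hT, hs⟩ := (isTreeSpanner_iff (connected φ)).1 h
  have hle' : T ≤ GG φ := hle
  refine ⟨fun z => decide (T.Adj (ix φ .x) (ix φ (.L (z, true)))), fun c hc => ?_⟩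
  obtain ⟨k, hk⟩ := (clause_gadget hc).true_lit (M := fun i => ix φ (.L (c.lit i).neg))
    (w := fun i => ix φ (.W (c.lit i))) (w' := fun i => ix φ (.W (c.lit i).neg))
    (fun i => var_gadget (lit_mem hc i))
    (fun i => ix_ne (φ := φ) (u := .b c i) (v := .L (c.lit i).neg) hc (lit_mem hc i) (by simp))
    (fun i => ix_ne (φ := φ) (u := .b c i) (v := .W (c.lit i)) hc (lit_mem hc i) (by simp))
    hT hle' hs
  have key : decide (T.Adj (ix φ .x) (ix φ (.L ((c.lit k).1, true)))) = (c.lit k).2 := by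
    rcases hl : c.lit k with ⟨z, s⟩
    rw [hl] at hk
    cases s with
    | true => exact decide_eq_true hk
    | false =>
      refine decide_eq_false fun hh => ?_
      have hz : ((z, true) : Lit).1 ∈ vars φ := by
        have := lit_mem hc k
        rw [hl] at this
        exact this
      exact (var_gadget hz).not_both hT hle' hs hh hk
  have h3 : k = 0 ∨ k = 1 ∨ k = 2 := (by decide : ∀ k : Fin 3, k = 0 ∨ k = 1 ∨ k = 2) k
  unfold Holds
  rcases h3 with rfl | rfl | rfl
  · exact Or.inl key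
  · exact Or.inr (Or.inl key)
  · exact Or.inr (Or.inr key)

/-- **Correctness of the reduction.** -/
theorem correct (φ : CNF3) : Satisfiable φ ↔ ∃ T, IsTreeSpanner 3 (gr φ).2 T :=
  ⟨exists_spanner, fun ⟨_, h⟩ => satisfiable_of_spanner h⟩

end

end Pool.Agent.H17T3S
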