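import Pool.Agent.helper17.T3S.Verts

/-!
# A satisfying assignment gives a tree 3-spanner
-/

namespace Pool.Agent.H17T3S

open SimpleGraph

/-- the literal is true -/
def tr (τ : ℕ → Bool) (l : Lit) : Bool := decide (τ l.1 = l.2)

/-- the complementary literal -/
def Lit.neg (l : Lit) : Lit := (l.1, !l.2)

/-- position of a true literal of the clause -/
def kk (τ : ℕ → Bool) (c : Cl) : Fin 3 :=
  if tr τ c.1 then 0 else if tr τ c.2.1 then 1 else 2

theorem tr_kk {τ : ℕ → Bool} {c : Cl} (h : Holds τ c) : tr τ (c.lit (kk τ c)) = true := by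
  unfold kk Cl.lit
  by_cases h1 : tr τ c.1 = true
  · simp [h1]
  · by_cases h2 : tr τ c.2.1 = true
    · simp [h1, h2]
    · simp only [h1, h2, if_false, Bool.false_eq_true]
      simp only [tr, decide_eq_true_eq] at h1 h2 ⊢
      rcases h with h | h | h
      · exact absurd h h1
      · exact absurd h h2
      · exact h

/-- parents -/
def par (τ : ℕ → Bool) : Nm → Nm
  | .x => .x
  | .L l => if tr τ l = true then .x else .L l.neg
  | .W l => .L l
  | .a c i => if i = kk τ c then .x else .a c (kk τ c)
  | .d c i => if i = kk τ c then .a c i else .d c (kk τ c)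
  | .b c i => if i = kk τ c then .a c i else .x
  | .t c i => if i = kk τ c then .b c i else .a c (kk τ c)

/-- depths -/
def rk (τ : ℕ → Bool) : Nm → ℕ
  | .x => 0
  | .L l => if tr τ l = true then 1 else 2
  | .W _ => 3
  | .a c i => if i = kk τ c then 1 else 2
  | .d c i => if i = kk τ c then 2 else 3
  | .b c i => if i = kk τ c then 2 else 1
  | .t c i => if i = kk τ c then 3 else 4

theorem tr_neg (τ : ℕ → Bool) (l : Lit) : tr τ l.neg = !(tr τ l) := by
  obtain ⟨z, s⟩ := l
  show decide (τ z = !s) = !(decide (τ z = s))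
  generalize τ z = q
  revert q s
  decide

theorem rk_par (τ : ℕ → Bool) {v : Nm} (hv : v ≠ .x) : rk τ (par τ v) < rk τ v := by
  cases v with
  | x => exact absurd rfl hv
  | L l =>
    simp only [par]
    by_cases h : tr τ l = true
    · simp [h, rk]
    · simp [h, rk, tr_neg]
  | W l =>
    simp only [par, rk]
    split_ifs <;> omega
  | a c i =>
    simp only [par]
    by_cases h : i = kk τ c
    · simp [h, rk]
    · simp [h, rk]
  | d c i =>
    simp only [par]
    by_cases h : i = kk τ c
    · simp [h, rk]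
    · simp [h, rk]
  | b c i =>
    simp only [par]
    by_cases h : i = kk τ c
    · simp [h, rk]
    · simp [h, rk]
  | t c i =>
    simp only [par]
    by_cases h : i = kk τ c
    · simp [h, rk]
    · simp [h, rk]

theorem par_in (τ : ℕ → Bool) {φ : CNF3} {v : Nm} (hv : v.In φ) : (par τ v).In φ := by
  cases v with
  | x => exact hv
  | L l =>
    simp only [par]
    split_ifs
    · trivial
    · exact hv
  | W l => exact hv
  | a c i =>
    simp only [par]
    split_ifs
    · trivial
    · exact hv
  | d c i =>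
    simp only [par]
    split_ifs <;> exact hv
  | b c i =>
    simp only [par]
    split_ifs
    · exact hv
    · trivial
  | t c i =>
    simp only [par]
    split_ifs <;> exact hv

theorem adj_par (τ : ℕ → Bool) {v : Nm} (hv : v ≠ .x) : v.adj (par τ v) = true := by
  cases v with
  | x => exact absurd rfl hv
  | L l =>
    simp only [par]
    by_cases h : tr τ l = true
    · simp [h, Nm.adj, Nm.arc]
    · simp [h, Nm.adj, Nm.arc, Lit.neg]
  | W l => simp [par, Nm.adj, Nm.arc]
  | a c i =>
    simp only [par]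
    by_cases h : i = kk τ c
    · simp [h, Nm.adj, Nm.arc]
    · simp [h, Nm.adj, Nm.arc]
  | d c i =>
    simp only [par]
    by_cases h : i = kk τ c
    · simp [h, Nm.adj, Nm.arc]
    · simp [h, Nm.adj, Nm.arc]
  | b c i =>
    simp only [par]
    by_cases h : i = kk τ c
    · simp [h, Nm.adj, Nm.arc]
    · simp [h, Nm.adj, Nm.arc]
  | t c i =>
    simp only [par]
    by_cases h : i = kk τ c
    · simp [h, Nm.adj, Nm.arc]
    · simp [h, Nm.adj, Nm.arc]

/-- common ancestors -/
def Near (τ : ℕ → Bool) (u v : Nm) : Prop :=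
  ∃ i j, i + j ≤ 3 ∧ (par τ)^[i] u = (par τ)^[j] v

theorem Near.symm {τ : ℕ → Bool} {u v : Nm} (h : Near τ u v) : Near τ v u := by
  obtain ⟨i, j, h1, h2⟩ := h
  exact ⟨j, i, by omega, h2.symm⟩

theorem eq_neg {l l' : Lit} (h : l.1 = l'.1 ∧ l.2 ≠ l'.2) : l' = l.neg := by
  obtain ⟨z, s⟩ := l
  obtain ⟨z', s'⟩ := l'
  obtain ⟨h1, h2⟩ := h
  simp only at h1 h2
  subst h1
  cases s <;> cases s' <;> simp_all [Lit.neg]

theorem neg_neg (l : Lit) : l.neg.neg = l := by
  obtain ⟨z, s⟩ := l
  simp [Lit.neg]

theorem near_arc (τ : ℕ → Bool) {φ : CNF3} (hτ : ∀ c ∈ φ, Holds τ c) {u v : Nm} (hu : u.In φ)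
    (h : u.arc v = true) : Near τ u v := by
  cases u with
  | x =>
    cases v <;> simp [Nm.arc] at h
    · rename_i l
      by_cases ht : tr τ l = true
      · exact ⟨0, 1, by omega, by simp [par, ht]⟩
      · exact ⟨0, 2, by omega, by simp [par, ht, tr_neg]⟩
    · rename_i c i
      by_cases hk : i = kk τ c
      · exact ⟨0, 1, by omega, by simp [par, hk]⟩
      · exact ⟨0, 2, by omega, by simp [par, hk]⟩
    · rename_i c i
      by_cases hk : i = kk τ c
      · exact ⟨0, 2, by omega, by simp [par, hk]⟩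
      · exact ⟨0, 1, by omega, by simp [par, hk]⟩
  | L l =>
    cases v <;> simp [Nm.arc] at h
    · rename_i l'
      have h' : l' = l.neg := eq_neg ⟨h.1, by simpa using h.2⟩
      subst h'
      by_cases ht : tr τ l = true
      · exact ⟨0, 1, by omega, by simp [par, ht, tr_neg, neg_neg]⟩
      · exact ⟨1, 0, by omega, by simp [par, ht]⟩
    · rename_i l'
      subst h
      exact ⟨0, 1, by omega, by simp [par]⟩
  | W l =>
    cases v <;> simp [Nm.arc] at h
    rename_i l'
    have h' : l' = l.neg := eq_neg ⟨h.1, by simpa using h.2⟩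
    subst h'
    by_cases ht : tr τ l = true
    · exact ⟨1, 2, by omega, by simp [par, ht, tr_neg, neg_neg]⟩
    · exact ⟨2, 1, by omega, by simp [par, ht]⟩
  | a c i =>
    cases v <;> simp [Nm.arc] at h
    · rename_i c' j
      obtain ⟨rfl, hij⟩ := h
      by_cases hi : i = kk τ c
      · have hj : j ≠ kk τ c := fun e => hij (hi.trans e.symm)
        exact ⟨0, 1, by omega, by simp [par, hi, hj]⟩
      · by_cases hj : j = kk τ c
        · exact ⟨1, 0, by omega, by simp [par, hi, hj]⟩
        · exact ⟨1, 1, by omega, by simp [par, hi, hj]⟩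
    · rename_i c' j
      obtain ⟨rfl, rfl⟩ := h
      by_cases hi : i = kk τ c
      · exact ⟨0, 1, by omega, by simp [par, hi]⟩
      · exact ⟨1, 2, by omega, by simp [par, hi]⟩
    · rename_i c' j
      obtain ⟨rfl, rfl⟩ := h
      by_cases hi : i = kk τ c
      · exact ⟨0, 1, by omega, by simp [par, hi]⟩
      · exact ⟨2, 1, by omega, by simp [par, hi]⟩
  | d c i =>
    cases v <;> simp [Nm.arc] at h
    rename_i c' j
    obtain ⟨rfl, hij⟩ := h
    by_cases hi : i = kk τ c
    · have hj : j ≠ kk τ c := fun e => hij (hi.trans e.symm)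
      exact ⟨0, 1, by omega, by simp [par, hi, hj]⟩
    · by_cases hj : j = kk τ c
      · exact ⟨1, 0, by omega, by simp [par, hi, hj]⟩
      · exact ⟨1, 1, by omega, by simp [par, hi, hj]⟩
  | b c i =>
    cases v <;> simp [Nm.arc] at h
    · rename_i l
      subst h
      by_cases hi : i = kk τ c
      · subst hi
        have ht := tr_kk (hτ c hu)
        exact ⟨2, 1, by omega, by simp [par, ht]⟩
      · by_cases ht : tr τ (c.lit i) = true
        · exact ⟨1, 1, by omega, by simp [par, hi, ht]⟩
        · exact ⟨1, 2, by omega, by simp [par, hi, ht, tr_neg]⟩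
    · rename_i c' j
      obtain ⟨rfl, rfl⟩ := h
      by_cases hi : i = kk τ c
      · exact ⟨0, 1, by omega, by simp [par, hi]⟩
      · exact ⟨1, 2, by omega, by simp [par, hi]⟩
  | t c i =>
    cases v <;> simp [Nm.arc] at h
    rename_i c' j
    obtain ⟨rfl, hij⟩ := h
    by_cases hi : i = kk τ c
    · have hj : j ≠ kk τ c := fun e => hij (hi.trans e.symm)
      exact ⟨2, 1, by omega, by simp [par, hi, hj]⟩
    · by_cases hj : j = kk τ c
      · exact ⟨1, 0, by omega, by simp [par, hi, hj]⟩
      · exact ⟨1, 1, by omega, by simp [par, hi, hj]⟩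

theorem exists_spanner {φ : CNF3} (h : Satisfiable φ) : ∃ T, IsTreeSpanner 3 (gr φ).2 T := by
  obtain ⟨τ, hτ⟩ := h
  let P : Fin (verts φ).length → Fin (verts φ).length := fun v => ix φ (par τ (nm φ v))
  have hP : ∀ v, nm φ (P v) = par τ (nm φ v) := fun v => nm_ix (par_in τ (nm_in v))
  have hroot : ∀ v, v ≠ ix φ .x → nm φ v ≠ .x := fun v hv e => hv (eq_ix e)
  have hrk : ∀ v, v ≠ ix φ .x → rk τ (nm φ (P v)) < rk τ (nm φ v) := by
    intro v hv
    rw [hP]
    exact rk_par τ (hroot v hv)
  have hT := isTree_of_parent (ix φ .x) P (fun v => rk τ (nm φ v)) hrk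
  refine ⟨parentGraph (ix φ .x) P, (isTreeSpanner_iff (connected φ)).2 ⟨?_, hT, ?_⟩⟩
  · have key : ∀ u v : Fin (verts φ).length, u ≠ ix φ .x → P u = v → (GG φ).Adj u v := by
      rintro u v hu rfl
      rw [adj_nm, hP]
      exact adj_par τ (hroot u hu)
    rintro u v ⟨_, ⟨h1, h2⟩ | ⟨h1, h2⟩⟩
    · exact key u v h1 h2
    · exact (key v u h1 h2).symm
  · intro u v huv
    have hit : ∀ (i : ℕ) (u : Fin (verts φ).length), nm φ (P^[i] u) = (par τ)^[i] (nm φ u) := by
      intro i
      induction i with
      | zero => intro u; rfl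
      | succ i ih => intro u; rw [Function.iterate_succ_apply, Function.iterate_succ_apply, ih, hP]
    have hn : Near τ (nm φ u) (nm φ v) := by
      have h1 : (nm φ u).adj (nm φ v) = true := huv
      rw [Nm.adj, Bool.or_eq_true] at h1
      rcases h1 with h1 | h1
      · exact near_arc τ hτ (nm_in u) h1
      · exact (near_arc τ hτ (nm_in v) h1).symm
    obtain ⟨i, j, hij, he⟩ := hn
    have he' : P^[i] u = P^[j] v := nm_injective (by rw [hit, hit, he])
    refine (dist_le_of_iterate (r := ix φ .x) hT.1 ?_ i j he').trans hij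
    intro w
    by_cases hw : w = ix φ .x
    · left
      subst hw
      show ix φ (par τ (nm φ (ix φ .x))) = ix φ .x
      rw [nm_ix (v := .x) trivial]
      rfl
    · exact Or.inr (parentGraph_adj (rk := fun v => rk τ (nm φ v)) hrk hw)

end Pool.Agent.H17T3S
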