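import Pool.Agent.helper17.T3S.Check
import Pool.Agent.TM2Lib.PolyNat
import Pool.Agent.GridW.Parse

/-!
# The tree 3-spanner problem is in NP
-/

namespace Pool.Agent.H17T3S

open Pool.Agent.TM2Lib Pool.Agent.TM2Lib.GW Pool.Agent.GridW

section
variable {α : Type} [Enc α]

theorem pc {β γ : Type} [Enc β] [Enc γ] {f : α → γ} (hf : Poly f) :
    Poly (fun p : α × β => f p.1) := hf.comp Poly.fst

theorem poly_edges {A : α → List (List ℕ)} (hA : Poly A) : Poly (fun a => edges (A a)) :=
  Poly.flatMap (h := fun p : α × (List ℕ × ℕ) => p.2.1.map fun j => (p.2.2, j))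
    (Poly.NPC.zipIdx hA)
    (TM2Lib.Poly.map (h := fun q : (α × (List ℕ × ℕ)) × ℕ => (q.1.2.2, q.2)) Poly.id.snd'.fst'
      (Poly.id.fst'.snd'.snd'.pair Poly.id.snd'))

theorem poly_tadj {c : α → List Ent} {u v : α → ℕ} (hc : Poly c) (hu : Poly u) (hv : Poly v) :
    Poly (fun a => tadj (c a) (u a) (v a)) := by
  refine Poly.any (h := fun p : α × Ent => !(decide (p.2.1 = 0)) &&
    ((decide (p.2.1 = u p.1) && decide (p.2.2.1 = v p.1)) ||
    (decide (p.2.1 = v p.1) && decide (p.2.2.1 = u p.1)))) hc ?_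
  have e1 : Poly (fun p : α × Ent => p.2.1) := Poly.id.snd'.fst'
  have e2 : Poly (fun p : α × Ent => p.2.2.1) := Poly.id.snd'.snd'.fst'
  exact (Poly.NPC.nat_eq e1 (TM2Lib.Poly.const 0)).not.and
    (((Poly.NPC.nat_eq e1 (pc hu)).and (Poly.NPC.nat_eq e2 (pc hv))).or
      ((Poly.NPC.nat_eq e1 (pc hv)).and (Poly.NPC.nat_eq e2 (pc hu))))

theorem poly_near {c : α → List Ent} {u v : α → ℕ} (hc : Poly c) (hu : Poly u) (hv : Poly v) :
    Poly (fun a => near (c a) (u a) (v a)) := by
  refine (poly_tadj hc hu hv).or ((Poly.any (h := fun p : α × Ent =>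
    tadj (c p.1) (u p.1) p.2.1 && tadj (c p.1) p.2.1 (v p.1)) hc ?_).or
    (Poly.any (h := fun p : α × Ent => (c p.1).any fun e' => tadj (c p.1) (u p.1) p.2.1 &&
      (tadj (c p.1) p.2.1 e'.1 && tadj (c p.1) e'.1 (v p.1))) hc ?_))
  · exact (poly_tadj (pc hc) (pc hu) Poly.id.snd'.fst').and
      (poly_tadj (pc hc) Poly.id.snd'.fst' (pc hv))
  · refine Poly.any (h := fun q : (α × Ent) × Ent => tadj (c q.1.1) (u q.1.1) q.1.2.1 &&
      (tadj (c q.1.1) q.1.2.1 q.2.1 && tadj (c q.1.1) q.2.1 (v q.1.1))) (pc hc) ?_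
    exact (poly_tadj (pc (pc hc)) (pc (pc hu)) Poly.id.fst'.snd'.fst').and
      ((poly_tadj (pc (pc hc)) Poly.id.fst'.snd'.fst' Poly.id.snd'.fst').and
        (poly_tadj (pc (pc hc)) Poly.id.snd'.fst' (pc (pc hv))))

theorem poly_chk1 {A : α → List (List ℕ)} {c : α → List Ent} (hA : Poly A) (hc : Poly c) :
    Poly (fun a => chk1 (A a) (c a)) := by
  refine Poly.all (h := fun p : α × (List ℕ × ℕ) => (c p.1).any fun e => decide (e.1 = p.2.2))
    (Poly.NPC.zipIdx hA) ?_
  exact Poly.any (h := fun q : (α × (List ℕ × ℕ)) × Ent => decide (q.2.1 = q.1.2.2)) (pc hc)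
    (Poly.NPC.nat_eq Poly.id.snd'.fst' Poly.id.fst'.snd'.snd')

theorem poly_chk2 {c : α → List Ent} (hc : Poly c) : Poly (fun a => chk2 (c a)) := by
  refine Poly.all (h := fun p : α × Ent => (c p.1).all fun e' => !(decide (p.2.1 = e'.1)) ||
    decide (p.2.2.1 = e'.2.1)) hc ?_
  exact Poly.all (h := fun q : (α × Ent) × Ent => !(decide (q.1.2.1 = q.2.1)) ||
    decide (q.1.2.2.1 = q.2.2.1)) (pc hc)
    ((Poly.NPC.nat_eq Poly.id.fst'.snd'.fst' Poly.id.snd'.fst').not.or
      (Poly.NPC.nat_eq Poly.id.fst'.snd'.snd'.fst' Poly.id.snd'.snd'.fst'))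

theorem poly_chk3 {A : α → List (List ℕ)} {c : α → List Ent} (hA : Poly A) (hc : Poly c) :
    Poly (fun a => chk3 (A a) (c a)) := by
  refine Poly.all (h := fun p : α × Ent => decide (p.2.1 = 0) ||
    (((edges (A p.1)).any fun q => decide (q.1 = p.2.1) && decide (q.2 = p.2.2.1)) &&
      ((c p.1).all fun e' => !(decide (e'.1 = p.2.2.1)) || decide (e'.2.2 < p.2.2.2)))) hc ?_
  refine (Poly.NPC.nat_eq Poly.id.snd'.fst' (TM2Lib.Poly.const 0)).or (Poly.and ?_ ?_)
  · exact Poly.any (h := fun q : (α × Ent) × (ℕ × ℕ) => decide (q.2.1 = q.1.2.1) &&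
      decide (q.2.2 = q.1.2.2.1)) (pc (poly_edges hA))
      ((Poly.NPC.nat_eq Poly.id.snd'.fst' Poly.id.fst'.snd'.fst').and
        (Poly.NPC.nat_eq Poly.id.snd'.snd' Poly.id.fst'.snd'.snd'.fst'))
  · exact Poly.all (h := fun q : (α × Ent) × Ent => !(decide (q.2.1 = q.1.2.2.1)) ||
      decide (q.2.2.2 < q.1.2.2.2)) (pc hc)
      ((Poly.NPC.nat_eq Poly.id.snd'.fst' Poly.id.fst'.snd'.snd'.fst').not.or
        (Poly.NPC.nat_lt Poly.id.snd'.snd'.snd' Poly.id.fst'.snd'.snd'.snd'))

theorem poly_chk4 {A : α → List (List ℕ)} {c : α → List Ent} (hA : Poly A) (hc : Poly c) :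
    Poly (fun a => chk4 (A a) (c a)) :=
  Poly.all (h := fun p : α × (ℕ × ℕ) => near (c p.1) p.2.1 p.2.2) (poly_edges hA)
    (poly_near (pc hc) Poly.id.snd'.fst' Poly.id.snd'.snd')

theorem poly_chkT {A : α → List (List ℕ)} {c : α → List Ent} (hA : Poly A) (hc : Poly c) :
    Poly (fun a => chkT (A a) (c a)) :=
  (poly_chk1 hA hc).and ((poly_chk2 hc).and ((poly_chk3 hA hc).and (poly_chk4 hA hc)))

/-- decoding of adjacency lists -/
def decA (d : D) : List (List ℕ) := (toL d).map decNats

@[simp] theorem decA_enc (l : List (List ℕ)) : decA (enc l) = l := by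
  rw [decA, toL_enc_list, List.map_map]
  have : (decNats ∘ enc : List ℕ → List ℕ) = id := funext fun n => decNats_enc n
  rw [this, List.map_id]

theorem poly_decA {f : α → D} (hf : Poly f) : Poly (fun a => decA (f a)) :=
  TM2Lib.Poly.map (h := fun p : α × D => decNats p.2) (poly_toL hf) (poly_decNats Poly.id.snd')

/-- decoding of an entry -/
def decEnt (d : D) : Ent := (decNat (dhd d), decNat (dhd (dtl d)), decNat (dtl (dtl d)))

@[simp] theorem decEnt_enc (e : Ent) : decEnt (enc e) = e := by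
  obtain ⟨a, b, c⟩ := e
  show (decNat (dhd (D.cons (enc a) (D.cons (enc b) (enc c)))),
    decNat (dhd (dtl (D.cons (enc a) (D.cons (enc b) (enc c))))),
    decNat (dtl (dtl (D.cons (enc a) (D.cons (enc b) (enc c)))))) = _
  rw [dhd_cons, dtl_cons, dhd_cons, dtl_cons, decNat_enc, decNat_enc, decNat_enc]

/-- decoding of a certificate -/
def decC (d : D) : List Ent := (toL d).map decEnt

@[simp] theorem decC_enc (l : List Ent) : decC (enc l) = l := by
  rw [decC, toL_enc_list, List.map_map]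
  have : (decEnt ∘ enc : Ent → Ent) = id := funext fun n => decEnt_enc n
  rw [this, List.map_id]

theorem poly_decEnt {f : α → D} (hf : Poly f) : Poly (fun a => decEnt (f a)) :=
  (poly_decNat (poly_dhd hf)).pair ((poly_decNat (poly_dhd (poly_dtl hf))).pair
    (poly_decNat (poly_dtl (poly_dtl hf))))

theorem poly_decC {f : α → D} (hf : Poly f) : Poly (fun a => decC (f a)) :=
  TM2Lib.Poly.map (h := fun p : α × D => decEnt p.2) (poly_toL hf) (poly_decEnt Poly.id.snd')

end

/-- the verifier -/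
def ver (z : List Bool × List Bool) : Bool := chkT (decA (parse z.1)) (decC (parse z.2))

theorem poly_ver : Poly ver :=
  poly_chkT (poly_decA (poly_parse Poly.fst)) (poly_decC (poly_parse Poly.snd))

theorem comp_ver : Comp pairCode (fun z => [ver z]) := by
  refine comp_bool ?_
  refine Comp.congr (x := fun z : List Bool × List Bool => D.encD (enc z)) poly_ver ?_
    (fun _ => rfl)
  rintro ⟨s, y⟩
  show D.encD (D.cons (enc s) (enc y)) = D.encD (D.cons (D.ofBits s) (D.ofBits y))
  rw [ofBits_eq_enc, ofBits_eq_enc]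

theorem sz_map_le {n K : ℕ} (g : Fin n → Ent) (hg : ∀ v, sz (g v) ≤ K) (l : List (Fin n)) :
    sz (l.map g) ≤ l.length * (K + 1) + 1 := by
  induction l with
  | nil => simp
  | cons v l ih =>
    have h1 := hg v
    rw [List.map_cons, sz_cons, List.length_cons, Nat.succ_mul]
    omega

theorem sz_cert_le {n : ℕ} {T : SimpleGraph (Fin n)} (hT : T.Connected) (r : Fin n)
    (p : Fin n → Fin n) : sz (cert T r p) ≤ n * (12 * n + 6) + 1 := by
  have h1 := sz_map_le (K := 12 * n + 5) (fun v : Fin n => (((v : ℕ), (p v : ℕ), T.dist r v) : Ent))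
    (fun v => by
      simp only [sz_pair]
      have e1 := Poly.NPC.sz_nat_le (v : ℕ)
      have e2 := Poly.NPC.sz_nat_le (p v : ℕ)
      have e3 := Poly.NPC.sz_nat_le (T.dist r v)
      have e4 := v.2
      have e5 := (p v).2
      have e6 : T.dist r v < n := by
        obtain ⟨w, hw, hl⟩ := hT.exists_path_of_dist r v
        have := hw.length_lt
        rw [Fintype.card_fin] at this
        omega
      omega) (List.finRange n)
  rw [List.length_finRange] at h1
  exact h1

/-- **The tree 3-spanner problem is in NP.** -/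
theorem inNP : InNP (TreeSpanner 3) := by
  refine ⟨fun z => ver (code z.1.1, z.2), Polynomial.X * (12 * Polynomial.X + 6) + 1, ?_, ?_⟩
  · exact Comp.to_tm (Comp.reindex comp_ver (fun z : (TreeSpanner 3).Inst × List Bool =>
      (code (z.1.1 : Graph), z.2)))
  · rintro ⟨G, hG⟩
    have hpar : decA (parse (code G)) = adjLists G := by
      show decA (parse (D.encD (enc G))) = _
      rw [parse_encD]
      exact decA_enc (adjLists G)
    constructor
    · rintro ⟨T, hT⟩
      obtain ⟨v0⟩ := hG.nonempty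
      have hn : 0 < G.1 := lt_of_le_of_lt (Nat.zero_le _) v0.2
      obtain ⟨p, hp⟩ := chkT_complete hG hT hn
      refine ⟨D.encD (enc (cert T ⟨0, hn⟩ p)), ?_, ?_⟩
      · have h1 : G.1 ≤ (code G).length := by
          have h2 : (adjLists G).length < sz (adjLists G) := length_lt_sz (adjLists G)
          have h3 : (adjLists G).length = G.1 := by simp [adjLists]
          have h4 : (code G).length = sz (adjLists G) := rfl
          omega
        have h2 : sz (cert T ⟨0, hn⟩ p) ≤ G.1 * (12 * G.1 + 6) + 1 :=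
          sz_cert_le hT.2.1.1 ⟨0, hn⟩ p
        have h3 : G.1 * (12 * G.1 + 6) ≤ (code G).length * (12 * (code G).length + 6) :=
          Nat.mul_le_mul h1 (by omega)
        show sz (cert T ⟨0, hn⟩ p) ≤ Polynomial.eval (code G).length _
        simp only [Polynomial.eval_add, Polynomial.eval_mul, Polynomial.eval_X,
          Polynomial.eval_ofNat, Polynomial.eval_one]
        omega
      · show chkT (decA (parse (code G))) (decC (parse (D.encD (enc (cert T ⟨0, hn⟩ p))))) = true
        rw [hpar, parse_encD, decC_enc]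
        exact hp
    · rintro ⟨y, -, hy⟩
      have hy' : chkT (decA (parse (code G))) (decC (parse y)) = true := hy
      rw [hpar] at hy'
      exact chkT_sound hG hy'

end Pool.Agent.H17T3S
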