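import Pool.Agent.helper17.T3S.Spanner

/-!
# Checking a certificate for a tree 3-spanner
-/

namespace Pool.Agent.H17T3S

open SimpleGraph

/-- entries of certificates: vertex, parent, rank -/
abbrev Ent : Type := ℕ × ℕ × ℕ

/-- the edges listed in adjacency lists -/
def edges (A : List (List ℕ)) : List (ℕ × ℕ) := A.zipIdx.flatMap fun q => q.1.map fun j => (q.2, j)

/-- adjacency in the tree -/
def tadj (c : List Ent) (u v : ℕ) : Bool :=
  c.any fun e => !(decide (e.1 = 0)) && ((decide (e.1 = u) && decide (e.2.1 = v)) ||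
    (decide (e.1 = v) && decide (e.2.1 = u)))

/-- distance at most three in the tree -/
def near (c : List Ent) (u v : ℕ) : Bool :=
  tadj c u v || ((c.any fun e => tadj c u e.1 && tadj c e.1 v) ||
    (c.any fun e => c.any fun e' => tadj c u e.1 && (tadj c e.1 e'.1 && tadj c e'.1 v)))

/-- every vertex has an entry -/
def chk1 (A : List (List ℕ)) (c : List Ent) : Bool :=
  A.zipIdx.all fun q => c.any fun e => decide (e.1 = q.2)

/-- the parent is a function of the vertex -/
def chk2 (c : List Ent) : Bool :=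
  c.all fun e => c.all fun e' => !(decide (e.1 = e'.1)) || decide (e.2.1 = e'.2.1)

/-- the parent is a neighbour of smaller rank -/
def chk3 (A : List (List ℕ)) (c : List Ent) : Bool :=
  c.all fun e => decide (e.1 = 0) ||
    (((edges A).any fun q => decide (q.1 = e.1) && decide (q.2 = e.2.1)) &&
      (c.all fun e' => !(decide (e'.1 = e.2.1)) || decide (e'.2.2 < e.2.2)))

/-- ends of edges are near each other -/
def chk4 (A : List (List ℕ)) (c : List Ent) : Bool := (edges A).all fun q => near c q.1 q.2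

/-- check a certificate -/
def chkT (A : List (List ℕ)) (c : List Ent) : Bool :=
  chk1 A c && (chk2 c && (chk3 A c && chk4 A c))

theorem mem_edges {G : Graph} {u v : ℕ} :
    (u, v) ∈ edges (adjLists G) ↔ ∃ (u' v' : Fin G.1), u = u' ∧ v = v' ∧ G.2.Adj u' v' := by
  classical
  unfold edges
  rw [List.mem_flatMap]
  constructor
  · rintro ⟨⟨l, i⟩, h1, h2⟩
    rw [List.mem_map] at h2
    obtain ⟨j, hj, he⟩ := h2
    simp only [Prod.mk.injEq] at he
    obtain ⟨rfl, rfl⟩ := he
    rw [List.mem_zipIdx_iff_getElem?] at h1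
    simp only [adjLists, List.getElem?_map] at h1
    rw [Option.map_eq_some_iff] at h1
    obtain ⟨a, ha, hal⟩ := h1
    subst hal
    rw [List.mem_map] at hj
    obtain ⟨b, hb, rfl⟩ := hj
    rw [List.mem_filter] at hb
    have hi : (a : ℕ) = i := by
      rw [List.getElem?_eq_some_iff] at ha
      obtain ⟨hlt, he⟩ := ha
      rw [← he]
      simp
    exact ⟨a, b, hi.symm, rfl, by simpa using hb.2⟩
  · rintro ⟨u', v', rfl, rfl, h⟩
    refine ⟨(((List.finRange G.1).filter fun w => decide (G.2.Adj u' w)).map Fin.val, u'),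
      ?_, ?_⟩
    · rw [List.mem_zipIdx_iff_getElem?]
      simp only [adjLists, List.getElem?_map]
      rw [Option.map_eq_some_iff]
      refine ⟨u', ?_, rfl⟩
      rw [List.getElem?_eq_some_iff]
      exact ⟨by simp, by simp⟩
    · rw [List.mem_map]
      refine ⟨v', ?_, rfl⟩
      rw [List.mem_map]
      refine ⟨v', ?_, rfl⟩
      rw [List.mem_filter]
      exact ⟨List.mem_finRange v', by simpa using h⟩

theorem chk1_iff {G : Graph} {c : List Ent} :
    chk1 (adjLists G) c = true ↔ ∀ v : Fin G.1, ∃ e ∈ c, e.1 = v := by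
  have hlen : (adjLists G).length = G.1 := by simp [adjLists]
  unfold chk1
  simp only [List.all_eq_true, List.any_eq_true, decide_eq_true_eq]
  constructor
  · intro h v
    have hv : (v : ℕ) < (adjLists G).length := by rw [hlen]; exact v.2
    exact h ((adjLists G)[(v : ℕ)], v) (by
      rw [List.mem_zipIdx_iff_getElem?]
      simp [List.getElem?_eq_getElem hv])
  · rintro h ⟨l, i⟩ hq
    rw [List.mem_zipIdx_iff_getElem?] at hq
    simp only at hq
    have hi : i < (adjLists G).length := (List.getElem?_eq_some_iff.1 hq).1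
    rw [hlen] at hi
    exact h ⟨i, hi⟩

theorem chk2_iff {c : List Ent} :
    chk2 c = true ↔ ∀ e ∈ c, ∀ e' ∈ c, e.1 = e'.1 → e.2.1 = e'.2.1 := by
  unfold chk2
  simp only [List.all_eq_true, Bool.or_eq_true, Bool.not_eq_true', decide_eq_false_iff_not,
    decide_eq_true_eq]
  constructor
  · intro h e he e' he' heq
    rcases h e he e' he' with h1 | h1
    · exact absurd heq h1
    · exact h1
  · intro h e he e' he'
    by_cases heq : e.1 = e'.1
    · exact Or.inr (h e he e' he' heq)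
    · exact Or.inl heq

theorem chk3_iff {A : List (List ℕ)} {c : List Ent} :
    chk3 A c = true ↔ ∀ e ∈ c, e.1 = 0 ∨ ((e.1, e.2.1) ∈ edges A ∧
      ∀ e' ∈ c, e'.1 = e.2.1 → e'.2.2 < e.2.2) := by
  unfold chk3
  simp only [List.all_eq_true, List.any_eq_true, Bool.or_eq_true, Bool.and_eq_true,
    Bool.not_eq_true', decide_eq_false_iff_not, decide_eq_true_eq]
  constructor
  · intro h e he
    rcases h e he with h1 | ⟨⟨⟨q1, q2⟩, hq, h2, h3⟩, h4⟩
    · exact Or.inl h1
    · right
      simp only at h2 h3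
      subst h2 h3
      refine ⟨hq, fun e' he' heq => ?_⟩
      rcases h4 e' he' with h5 | h5
      · exact absurd heq h5
      · exact h5
  · intro h e he
    rcases h e he with h1 | ⟨h1, h2⟩
    · exact Or.inl h1
    · refine Or.inr ⟨⟨_, h1, rfl, rfl⟩, fun e' he' => ?_⟩
      by_cases heq : e'.1 = e.2.1
      · exact Or.inr (h2 e' he' heq)
      · exact Or.inl heq

theorem tadj_iff {c : List Ent} {u v : ℕ} :
    tadj c u v = true ↔ ∃ e ∈ c, e.1 ≠ 0 ∧ ((e.1 = u ∧ e.2.1 = v) ∨ (e.1 = v ∧ e.2.1 = u)) := by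
  unfold tadj
  simp only [List.any_eq_true, Bool.or_eq_true, Bool.and_eq_true,
    Bool.not_eq_true', decide_eq_false_iff_not, decide_eq_true_eq]
  try rfl

theorem near_iff {c : List Ent} {u v : ℕ} :
    near c u v = true ↔ tadj c u v = true ∨ (∃ e ∈ c, tadj c u e.1 = true ∧ tadj c e.1 v = true) ∨
      (∃ e ∈ c, ∃ e' ∈ c, tadj c u e.1 = true ∧ tadj c e.1 e'.1 = true ∧
        tadj c e'.1 v = true) := by
  unfold near
  simp only [List.any_eq_true, Bool.or_eq_true, Bool.and_eq_true]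

theorem chkT_iff {A : List (List ℕ)} {c : List Ent} : chkT A c = true ↔
    chk1 A c = true ∧ chk2 c = true ∧ chk3 A c = true ∧ chk4 A c = true := by
  unfold chkT
  simp only [Bool.and_eq_true]

theorem chkT_sound {G : Graph} (hG : G.2.Connected) {c : List Ent}
    (h : chkT (adjLists G) c = true) : ∃ T, IsTreeSpanner 3 G.2 T := by
  classical
  obtain ⟨h1, h2, h3, h4⟩ := chkT_iff.1 h
  rw [chk1_iff] at h1
  rw [chk2_iff] at h2
  rw [chk3_iff] at h3
  choose e he hev using h1
  obtain ⟨v0⟩ := hG.nonempty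
  have hn : 0 < G.1 := lt_of_le_of_lt (Nat.zero_le _) v0.2
  let r : Fin G.1 := ⟨0, hn⟩
  have hr : ∀ v : Fin G.1, v ≠ r → (v : ℕ) ≠ 0 := fun v hv h0 => hv (Fin.ext h0)
  have hex : ∀ v : Fin G.1, ∃ p : Fin G.1, v ≠ r → ((e v).2.1 = p ∧ G.2.Adj v p) := by
    intro v
    by_cases hv : v = r
    · exact ⟨v, fun h => absurd hv h⟩
    · rcases h3 (e v) (he v) with h5 | ⟨h5, -⟩
      · rw [hev] at h5
        exact absurd h5 (hr v hv)
      · obtain ⟨u', p', e1, e2, e3⟩ := mem_edges.1 h5
        rw [hev] at e1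
        have : v = u' := Fin.ext e1
        subst this
        exact ⟨p', fun _ => ⟨e2, e3⟩⟩
  choose p hp using hex
  have hrk : ∀ v, v ≠ r → (e (p v)).2.2 < (e v).2.2 := by
    intro v hv
    rcases h3 (e v) (he v) with h5 | ⟨-, h5⟩
    · rw [hev] at h5
      exact absurd h5 (hr v hv)
    · exact h5 _ (he _) (by rw [hev, (hp v hv).1])
  have hT := isTree_of_parent r p (fun v => (e v).2.2) hrk
  refine ⟨parentGraph r p, (isTreeSpanner_iff hG).2 ⟨?_, hT, ?_⟩⟩
  · rintro u v ⟨_, ⟨g1, rfl⟩ | ⟨g1, rfl⟩⟩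
    · exact (hp u g1).2
    · exact (hp v g1).2.symm
  · -- tadj gives adjacency
    have hadj : ∀ u v : Fin G.1, tadj c u v = true → (parentGraph r p).Adj u v := by
      have key : ∀ u v : Fin G.1, ∀ f ∈ c, f.1 ≠ 0 → f.1 = u → f.2.1 = v →
          (parentGraph r p).Adj u v := by
        intro u v f hf h0 hu hv
        have hur : u ≠ r := by
          rintro rfl
          exact h0 hu
        have h6 := h2 _ (he u) f hf (by rw [hev, hu])
        have h7 : p u = v := Fin.ext (by rw [← (hp u hur).1, h6, hv])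
        have h8 := parentGraph_adj (rk := fun v => (e v).2.2) hrk hur
        rwa [h7] at h8
      intro u v huv
      rw [tadj_iff] at huv
      obtain ⟨f, hf, h0, ⟨g1, g2⟩ | ⟨g1, g2⟩⟩ := huv
      · exact key u v f hf h0 g1 g2
      · exact (key v u f hf h0 g1 g2).symm
    have hlt : ∀ f ∈ c, f.1 < G.1 := by
      intro f hf
      rcases h3 f hf with h5 | ⟨h5, -⟩
      · rw [h5]; exact hn
      · obtain ⟨u', p', e1, e2, e3⟩ := mem_edges.1 h5
        rw [e1]; exact u'.2
    intro u v huv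
    have hmem : ((u : ℕ), (v : ℕ)) ∈ edges (adjLists G) := mem_edges.2 ⟨u, v, rfl, rfl, huv⟩
    have h5 : near c u v = true := by
      unfold chk4 at h4
      rw [List.all_eq_true] at h4
      exact h4 _ hmem
    rcases near_iff.1 h5 with h6 | ⟨f, hf, h6, h7⟩ | ⟨f, hf, f', hf', h6, h7, h8⟩
    · rw [dist_eq_one_iff_adj.2 (hadj u v h6)]
      omega
    · have g1 := hadj u ⟨f.1, hlt f hf⟩ h6
      have g2 := hadj ⟨f.1, hlt f hf⟩ v h7
      have := dist_le_of_walk (t := 1) (G := parentGraph r p) hT.1 (fun a b hab => by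
        rw [dist_eq_one_iff_adj.2 hab]) (Walk.cons g1 (Walk.cons g2 Walk.nil))
      simp only [Walk.length_cons, Walk.length_nil] at this
      omega
    · have g1 := hadj u ⟨f.1, hlt f hf⟩ h6
      have g2 := hadj ⟨f.1, hlt f hf⟩ ⟨f'.1, hlt f' hf'⟩ h7
      have g3 := hadj ⟨f'.1, hlt f' hf'⟩ v h8
      have := dist_le_of_walk (t := 1) (G := parentGraph r p) hT.1 (fun a b hab => by
        rw [dist_eq_one_iff_adj.2 hab]) (Walk.cons g1 (Walk.cons g2 (Walk.cons g3 Walk.nil)))
      simp only [Walk.length_cons, Walk.length_nil] at this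
      omega

/-- the certificate of a tree -/
noncomputable def cert {n : ℕ} (T : SimpleGraph (Fin n)) (r : Fin n) (p : Fin n → Fin n) :
    List Ent := (List.finRange n).map fun v : Fin n => ((v : ℕ), (p v : ℕ), T.dist r v)

theorem mem_cert {n : ℕ} {T : SimpleGraph (Fin n)} {r : Fin n} {p : Fin n → Fin n} {f : Ent} :
    f ∈ cert T r p ↔ ∃ v : Fin n, f = ((v : ℕ), (p v : ℕ), T.dist r v) := by
  unfold cert
  rw [List.mem_map]
  constructor
  · rintro ⟨v, -, rfl⟩; exact ⟨v, rfl⟩
  · rintro ⟨v, rfl⟩; exact ⟨v, List.mem_finRange v, rfl⟩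

theorem exists_parent {V : Type*} {T : SimpleGraph V} (hT : T.Connected) (r v : V) (hv : v ≠ r) :
    ∃ p, T.Adj v p ∧ T.dist r v = T.dist r p + 1 := by
  obtain ⟨w, hw⟩ := hT.exists_walk_length_eq_dist v r
  cases w with
  | nil => exact absurd rfl hv
  | cons h q =>
    rename_i y
    refine ⟨y, h, ?_⟩
    rw [Walk.length_cons] at hw
    have h1 := dist_le q
    have h2 := hT.dist_triangle (u := v) (v := y) (w := r)
    rw [dist_eq_one_iff_adj.2 h] at h2
    rw [dist_comm (u := r) (v := v), dist_comm (u := r) (v := y)]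
    omega

theorem chkT_complete {G : Graph} {T : SimpleGraph (Fin G.1)} (hG : G.2.Connected)
    (h : IsTreeSpanner 3 G.2 T) (hn : 0 < G.1) :
    ∃ p : Fin G.1 → Fin G.1, chkT (adjLists G) (cert T ⟨0, hn⟩ p) = true := by
  classical
  obtain ⟨hle, hT, hs⟩ := (isTreeSpanner_iff hG).1 h
  set r : Fin G.1 := ⟨0, hn⟩ with hrdef
  have hr : ∀ v : Fin G.1, v ≠ r → (v : ℕ) ≠ 0 := fun v hv h0 => hv (Fin.ext h0)
  have hex : ∀ v : Fin G.1, ∃ p : Fin G.1, v ≠ r → (T.Adj v p ∧ T.dist r v = T.dist r p + 1) := by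
    intro v
    by_cases hv : v = r
    · exact ⟨v, fun h => absurd hv h⟩
    · obtain ⟨p, hp⟩ := exists_parent hT.1 r v hv
      exact ⟨p, fun _ => hp⟩
  choose p hp using hex
  refine ⟨p, ?_⟩
  have htadj : ∀ u v : Fin G.1, T.Adj u v → tadj (cert T r p) u v = true := by
    have key : ∀ u v : Fin G.1, T.Adj u v → T.dist r u = T.dist r v + 1 →
        u ≠ r ∧ p u = v := by
      intro u v huv hd
      have hur : u ≠ r := by
        rintro rfl
        rw [dist_self] at hd
        omega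
      refine ⟨hur, ?_⟩
      exact penult_unique hT (hp u hur).1.symm huv.symm (hp u hur).2 hd
    intro u v huv
    rw [tadj_iff]
    rcases hT.dist_eq_dist_add_one_of_adj r huv with hd | hd
    · obtain ⟨h1, h2⟩ := key u v huv hd
      exact ⟨_, mem_cert.2 ⟨u, rfl⟩, hr u h1, Or.inl ⟨rfl, by rw [h2]⟩⟩
    · obtain ⟨h1, h2⟩ := key v u huv.symm hd
      exact ⟨_, mem_cert.2 ⟨v, rfl⟩, hr v h1, Or.inr ⟨rfl, by rw [h2]⟩⟩
  refine chkT_iff.2 ⟨chk1_iff.2 ?_, chk2_iff.2 ?_, chk3_iff.2 ?_, ?_⟩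
  · intro v
    exact ⟨_, mem_cert.2 ⟨v, rfl⟩, rfl⟩
  · intro e he e' he' heq
    obtain ⟨v, rfl⟩ := mem_cert.1 he
    obtain ⟨v', rfl⟩ := mem_cert.1 he'
    have : v = v' := Fin.ext heq
    subst this
    rfl
  · intro e he
    obtain ⟨v, rfl⟩ := mem_cert.1 he
    by_cases hv : v = r
    · left
      rw [hv]
    · right
      refine ⟨mem_edges.2 ⟨v, p v, rfl, rfl, hle (hp v hv).1⟩, ?_⟩
      intro e' he' heq
      obtain ⟨v', rfl⟩ := mem_cert.1 he'
      have : v' = p v := Fin.ext heq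
      subst this
      simp only
      rw [(hp v hv).2]
      omega
  · unfold chk4
    rw [List.all_eq_true]
    rintro ⟨a, b⟩ hab
    obtain ⟨u, v, rfl, rfl, huv⟩ := mem_edges.1 hab
    rw [near_iff]
    rcases le_three hT (hs u v huv) huv.ne with e | ⟨y, e1, e2⟩ | ⟨y, z, e1, e2, e3, -, -⟩
    · exact Or.inl (htadj u v e)
    · exact Or.inr (Or.inl ⟨_, mem_cert.2 ⟨y, rfl⟩, htadj u y e1, htadj y v e2⟩)
    · exact Or.inr (Or.inr ⟨_, mem_cert.2 ⟨y, rfl⟩, _, mem_cert.2 ⟨z, rfl⟩, htadj u y e1,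
        htadj y z e2, htadj z v e3⟩)

end Pool.Agent.H17T3S
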