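import Pool.Agent.helper17.T3S.Prism

/-!
# The clause gadget and the variable gadget: what a tree 3-spanner looks like
-/

namespace Pool.Agent.H17T3S

open SimpleGraph

variable {V : Type*} {G T : SimpleGraph V}

theorem dist_le2 (hT : T.IsTree) {a b c : V} (h1 : T.Adj a b) (h2 : T.Adj b c) :
    T.dist a c ≤ 2 := by
  by_cases h : a = c
  · subst h; simp
  · exact (dist2 hT h1 h2 h).le

/-- the clause gadget, with centre `x` and literal vertices `L` -/
structure Clause (G : SimpleGraph V) (x : V) (a d b t L : Fin 3 → V) : Prop where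
  pr : Prism G (a 0) (a 1) (a 2) (d 0) (d 1) (d 2)
  xa : ∀ i, G.Adj x (a i)
  xb : ∀ i, G.Adj x (b i)
  ab : ∀ i, G.Adj (a i) (b i)
  bt : ∀ i, G.Adj (b i) (t i)
  bL : ∀ i, G.Adj (b i) (L i)
  ta : ∀ i j, j ≠ i → G.Adj (t i) (a j)
  na : ∀ i y, G.Adj (a i) y →
    y = x ∨ (∃ j, j ≠ i ∧ y = a j) ∨ y = d i ∨ y = b i ∨ (∃ j, j ≠ i ∧ y = t j)
  nb : ∀ i y, G.Adj (b i) y → y = x ∨ y = a i ∨ y = t i ∨ y = L i
  nt : ∀ i y, G.Adj (t i) y → y = b i ∨ ∃ j, j ≠ i ∧ y = a j
  nLa : ∀ i j, ¬ G.Adj (L i) (a j)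
  nLd : ∀ i j, ¬ G.Adj (L i) (d j)
  nLt : ∀ i j, ¬ G.Adj (L i) (t j)
  aa : ∀ i j, i ≠ j → a i ≠ a j
  ab' : ∀ i j, a i ≠ b j
  at' : ∀ i j, a i ≠ t j
  aL' : ∀ i j, a i ≠ L j
  bt' : ∀ i j, b i ≠ t j
  xt' : ∀ i, x ≠ t i

namespace Clause

variable {x : V} {a d b t L : Fin 3 → V}

theorem not_ta (h : Clause G x a d b t L) (i : Fin 3) : ¬ G.Adj (t i) (a i) := by
  intro hh
  rcases h.nt i _ hh with e | ⟨j, hj, e⟩
  · exact h.ab' _ _ e
  · exact h.aa i j hj.symm e

theorem not_ba (h : Clause G x a d b t L) {i j : Fin 3} (hij : j ≠ i) : ¬ G.Adj (b i) (a j) := by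
  intro hh
  rcases h.nb i _ hh with e | e | e | e
  · exact (h.xa j).ne e.symm
  · exact h.aa j i hij e
  · exact h.at' _ _ e
  · exact h.aL' _ _ e

/-- the star centre `k` is not at distance two from `x` -/
theorem not_two (h : Clause G x a d b t L) (hT : T.IsTree) (hle : T ≤ G)
    (hs : ∀ u v, G.Adj u v → T.dist u v ≤ 3) {k l : Fin 3} (hkl : l ≠ k)
    (hst : ∀ j, j ≠ k → T.Adj (a k) (a j)) (h2 : T.dist x (a k) = 2)
    (h3 : T.dist x (a l) = 3) : False := by
  obtain ⟨p, p1, p2⟩ : ∃ p, T.Adj x p ∧ T.Adj p (a k) := by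
    rcases le_three hT (by omega) (h.xa k).ne with e | e | ⟨y, z, e1, e2, e3, m1, m2⟩
    · rw [dist_adj e] at h2; omega
    · exact e
    · have := dist3 hT e1 e2 e3 m1 m2
      omega
  have hpl : p ≠ a l := by
    rintro rfl
    rw [dist_adj p1] at h3; omega
  have hxl : ¬ T.Adj x (a l) := fun e => by rw [dist_adj e] at h3; omega
  have hxb := hs _ _ (h.xb l)
  have far : ∀ q, T.Adj (a k) q → T.Adj q (b l) → p ≠ q → False := by
    intro q q1 q2 hq
    have := dist4 hT p1 p2 q1 q2 (h.xa k).ne hq (h.ab' _ _)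
    omega
  rcases le_three hT (hs _ _ (h.ab l).symm) (h.ab' l l).symm with
    e | ⟨y, e1, e2⟩ | ⟨y, z, e1, e2, e3, m1, m2⟩
  · exact far _ (hst l hkl) e.symm hpl
  · rcases h.nb l y (hle e1) with rfl | rfl | rfl | rfl
    · exact hxl e2
    · exact e2.ne rfl
    · exact h.not_ta l (hle e2)
    · exact h.nLa _ _ (hle e2)
  · rcases h.nb l y (hle e1) with rfl | rfl | rfl | rfl
    · have := dist_le2 hT e2 e3
      omega
    · exact m2 rfl
    · rcases h.nt l z (hle e2) with rfl | ⟨j, hj, rfl⟩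
      · exact m1 rfl
      · by_cases hjk : j = k
        · subst hjk
          refine far _ e2.symm e1.symm ?_
          rintro rfl
          rcases h.nt l _ (hle p1.symm) with e | ⟨i, _, e⟩
          · exact (h.xb l).ne e
          · exact (h.xa i).ne e
        · exact no3 hT (hst j hjk) e3 (hst l hkl)
    · rcases h.na l z (hle e3.symm) with rfl | ⟨j, hj, rfl⟩ | rfl | rfl | ⟨j, hj, rfl⟩
      · exact hxl e3
      · exact h.nLa _ _ (hle e2)
      · exact h.nLd _ _ (hle e2)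
      · exact m1 rfl
      · exact h.nLt _ _ (hle e2)

/-- the star centre is adjacent to `x` -/
theorem centre (h : Clause G x a d b t L) (hT : T.IsTree) (hle : T ≤ G)
    (hs : ∀ u v, G.Adj u v → T.dist u v ≤ 3) {k : Fin 3}
    (hst : ∀ j, j ≠ k → T.Adj (a k) (a j)) : T.Adj x (a k) := by
  obtain ⟨i, j, hi, hj, hij⟩ : ∃ i j : Fin 3, i ≠ k ∧ j ≠ k ∧ i ≠ j :=
    (by decide : ∀ k : Fin 3, ∃ i j : Fin 3, i ≠ k ∧ j ≠ k ∧ i ≠ j) k
  have key : ∀ l, l ≠ k → T.dist x (a l) = T.dist x (a k) + 1 → T.Adj x (a k) := by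
    intro l hl hd
    have h1 := hs _ _ (h.xa l)
    have h2 : T.dist x (a k) ≠ 2 := fun h2 => h.not_two hT hle hs hl hst h2 (by omega)
    have h3 : T.dist x (a k) ≠ 0 := by
      intro h0
      exact (h.xa k).ne ((hT.1.dist_eq_zero_iff).1 h0)
    exact dist_eq_one_iff_adj.1 (by omega)
  rcases hT.dist_eq_dist_add_one_of_adj x (hst i hi) with e | e
  · rcases hT.dist_eq_dist_add_one_of_adj x (hst j hj) with f | f
    · exact absurd (penult_unique hT (hst i hi).symm (hst j hj).symm e f) (h.aa i j hij)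
    · exact key j hj f
  · exact key i hi e

theorem not_xb (h : Clause G x a d b t L) (hT : T.IsTree) (hle : T ≤ G)
    (hs : ∀ u v, G.Adj u v → T.dist u v ≤ 3) {k : Fin 3}
    (hst : ∀ j, j ≠ k → T.Adj (a k) (a j)) (hx : T.Adj x (a k)) (hb : T.Adj x (b k)) :
    False := by
  obtain ⟨i, hi⟩ : ∃ i : Fin 3, i ≠ k := (by decide : ∀ k : Fin 3, ∃ i : Fin 3, i ≠ k) k
  rcases le_three hT (hs _ _ (h.bt k).symm) (h.bt' k k).symm with
    e | ⟨y, e1, e2⟩ | ⟨y, z, e1, e2, e3, m1, m2⟩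
  · have := dist4 hT e hb.symm hx (hst i hi) (h.xt' k).symm (h.ab' _ _).symm (h.xa i).ne
    have := hs _ _ (h.ta k i hi)
    omega
  · rcases h.nt k y (hle e1) with rfl | ⟨j, hj, rfl⟩
    · exact e2.ne rfl
    · exact h.not_ba hj (hle e2.symm)
  · rcases h.nt k y (hle e1) with rfl | ⟨j, hj, rfl⟩
    · exact m2 rfl
    · have := dist4 hT e1 (hst j hj).symm hx.symm hb (h.at' _ _).symm (h.xa j).ne.symm (h.ab' _ _)
      have := hs _ _ (h.bt k).symm
      omega

/-- either `b k` hangs on `a k`, or the literal is a child of `x` -/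
theorem ab_or (h : Clause G x a d b t L) (hT : T.IsTree) (hle : T ≤ G)
    (hs : ∀ u v, G.Adj u v → T.dist u v ≤ 3) {k : Fin 3}
    (hst : ∀ j, j ≠ k → T.Adj (a k) (a j)) (hx : T.Adj x (a k)) :
    T.Adj (a k) (b k) ∨ T.Adj x (L k) := by
  rcases le_three hT (hs _ _ (h.ab k).symm) (h.ab' k k).symm with
    e | ⟨y, e1, e2⟩ | ⟨y, z, e1, e2, e3, m1, m2⟩
  · exact Or.inl e.symm
  · exfalso
    rcases h.nb k y (hle e1) with rfl | rfl | rfl | rfl
    · exact h.not_xb hT hle hs hst hx e1.symm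
    · exact e2.ne rfl
    · exact h.not_ta k (hle e2)
    · exact h.nLa _ _ (hle e2)
  · rcases h.nb k y (hle e1) with rfl | rfl | rfl | rfl
    · exact (h.not_xb hT hle hs hst hx e1.symm).elim
    · exact absurd rfl m2
    · exfalso
      rcases h.nt k z (hle e2) with rfl | ⟨j, hj, rfl⟩
      · exact m1 rfl
      · have := dist4 hT e1 e2 e3 hx.symm m1 m2 (h.xa j).ne.symm
        have := hs _ _ (h.xb k).symm
        omega
    · rcases h.na k z (hle e3.symm) with rfl | ⟨j, hj, rfl⟩ | rfl | rfl | ⟨j, hj, rfl⟩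
      · exact Or.inr e2.symm
      · exact (h.nLa _ _ (hle e2)).elim
      · exact (h.nLd _ _ (hle e2)).elim
      · exact absurd rfl m1
      · exact (h.nLt _ _ (hle e2)).elim

theorem xL_or (h : Clause G x a d b t L) (hT : T.IsTree) (hle : T ≤ G)
    (hs : ∀ u v, G.Adj u v → T.dist u v ≤ 3) {k : Fin 3}
    (hx : T.Adj x (a k)) (hb : T.Adj (a k) (b k)) :
    T.Adj x (L k) ∨ T.Adj (b k) (L k) := by
  rcases le_three hT (hs _ _ (h.bL k)) (h.bL k).ne with
    e | ⟨y, e1, e2⟩ | ⟨y, z, e1, e2, e3, m1, m2⟩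
  · exact Or.inr e
  · rcases h.nb k y (hle e1) with rfl | rfl | rfl | rfl
    · exact Or.inl e2
    · exact (h.nLa _ _ (hle e2.symm)).elim
    · exact (h.nLt _ _ (hle e2.symm)).elim
    · exact absurd rfl e2.ne
  · rcases h.nb k y (hle e1) with rfl | rfl | rfl | rfl
    · exact (no3 hT hx hb e1.symm).elim
    · rcases h.na k z (hle e2) with rfl | ⟨j, hj, rfl⟩ | rfl | rfl | ⟨j, hj, rfl⟩
      · exact Or.inl e3
      · exact (h.nLa _ _ (hle e3.symm)).elim
      · exact (h.nLd _ _ (hle e3.symm)).elim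
      · exact absurd rfl m1
      · exact (h.nLt _ _ (hle e3.symm)).elim
    · rcases h.nt k z (hle e2) with rfl | ⟨j, hj, rfl⟩
      · exact absurd rfl m1
      · exact (h.nLa _ _ (hle e3.symm)).elim
    · exact absurd rfl m2

end Clause

/-- the variable gadget -/
structure Var (G : SimpleGraph V) (x L M w w' : V) : Prop where
  xL : G.Adj x L
  xM : G.Adj x M
  LM : G.Adj L M
  Lw : G.Adj L w
  ww : G.Adj w w'
  wM : G.Adj w' M
  nw : ∀ y, G.Adj w y → y = L ∨ y = w'
  nw' : ∀ y, G.Adj w' y → y = w ∨ y = M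
  xw : x ≠ w
  Lw' : L ≠ w'
  wM' : w ≠ M

namespace Var

variable {x L M w w' : V}

theorem path (h : Var G x L M w w') (hT : T.IsTree) (hle : T ≤ G)
    (hs : ∀ u v, G.Adj u v → T.dist u v ≤ 3) :
    T.Adj L M ∨ (T.Adj L w ∧ T.Adj w w' ∧ T.Adj w' M) := by
  have nwM : ¬ G.Adj w M := fun e => by
    rcases h.nw _ e with f | f
    · exact h.LM.ne f.symm
    · exact h.wM.ne f.symm
  have nwL : ¬ G.Adj w' L := fun e => by
    rcases h.nw' _ e with f | f
    · exact h.Lw.ne f
    · exact h.LM.ne f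
  by_cases c1 : T.Adj w w'
  · by_cases c2 : T.Adj L w
    · by_cases c3 : T.Adj w' M
      · exact Or.inr ⟨c2, c1, c3⟩
      · left
        rcases le_three hT (hs _ _ h.wM) h.wM.ne with
          e | ⟨y, e1, e2⟩ | ⟨y, z, e1, e2, e3, m1, m2⟩
        · exact absurd e c3
        · rcases h.nw' y (hle e1) with rfl | rfl
          · exact (nwM (hle e2)).elim
          · exact absurd rfl e2.ne
        · rcases h.nw' y (hle e1) with rfl | rfl
          · rcases h.nw z (hle e2) with rfl | rfl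
            · exact e3
            · exact absurd rfl m1
          · exact absurd rfl m2
    · left
      rcases le_three hT (hs _ _ h.Lw.symm) h.Lw.ne.symm with
        e | ⟨y, e1, e2⟩ | ⟨y, z, e1, e2, e3, m1, m2⟩
      · exact absurd e.symm c2
      · rcases h.nw y (hle e1) with rfl | rfl
        · exact absurd rfl e2.ne
        · exact (nwL (hle e2)).elim
      · rcases h.nw y (hle e1) with rfl | rfl
        · exact absurd rfl m2
        · rcases h.nw' z (hle e2) with rfl | rfl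
          · exact absurd rfl m1
          · exact e3.symm
  · left
    rcases le_three hT (hs _ _ h.ww) h.ww.ne with
      e | ⟨y, e1, e2⟩ | ⟨y, z, e1, e2, e3, m1, m2⟩
    · exact absurd e c1
    · rcases h.nw y (hle e1) with rfl | rfl
      · exact (nwL (hle e2.symm)).elim
      · exact absurd rfl e2.ne
    · rcases h.nw y (hle e1) with rfl | rfl
      · rcases h.nw' z (hle e3.symm) with rfl | rfl
        · exact absurd rfl m1
        · exact e2
      · exact absurd rfl m2

/-- not both literals are children of `x` -/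
theorem not_both (h : Var G x L M w w') (hT : T.IsTree) (hle : T ≤ G)
    (hs : ∀ u v, G.Adj u v → T.dist u v ≤ 3) (h1 : T.Adj x L) (h2 : T.Adj x M) : False := by
  rcases h.path hT hle hs with e | ⟨e1, e2, e3⟩
  · exact no3 hT h1 e h2
  · have := dist4 hT h1 e1 e2 e3 h.xw h.Lw' h.wM'
    rw [dist_adj h2] at this
    omega

/-- the literal vertex does not hang below `b` -/
theorem not_below (h : Var G x L M w w') (hT : T.IsTree) (hle : T ≤ G)
    (hs : ∀ u v, G.Adj u v → T.dist u v ≤ 3) {a b : V} (h1 : T.Adj x a) (h2 : T.Adj a b)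
    (h3 : T.Adj b L) (n1 : x ≠ b) (n2 : a ≠ L) (n3 : b ≠ M) (n4 : b ≠ w) : False := by
  have hM := hs _ _ h.xM
  have d2 := dist2 hT h1 h2 n1
  have d3 := dist3 hT h1 h2 h3 n1 n2
  rcases h.path hT hle hs with e | ⟨e1, e2, e3⟩
  · have := dist_step (x := x) hT h3 e n3 (by omega)
    omega
  · have d4 := dist_step (x := x) hT h3 e1 n4 (by omega)
    have d5 := dist_step (x := x) hT e1 e2 h.Lw' (by omega)
    have d6 := dist_step (x := x) hT e2 e3 h.wM' (by omega)
    omega

end Var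

/-- **Clause lemma.** In a tree 3-spanner, some literal of the clause is a child of `x`. -/
theorem Clause.true_lit {x : V} {a d b t L M w w' : Fin 3 → V} (h : Clause G x a d b t L)
    (hv : ∀ i, Var G x (L i) (M i) (w i) (w' i)) (hbM : ∀ i, b i ≠ M i) (hbw : ∀ i, b i ≠ w i)
    (hT : T.IsTree) (hle : T ≤ G)
    (hs : ∀ u v, G.Adj u v → T.dist u v ≤ 3) : ∃ k, T.Adj x (L k) := by
  obtain ⟨k, hst⟩ : ∃ k, ∀ j, j ≠ k → T.Adj (a k) (a j) := by
    rcases h.pr.star hT hle hs with ⟨e1, e2⟩ | ⟨e1, e2⟩ | ⟨e1, e2⟩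
    · refine ⟨0, fun j hj => ?_⟩
      fin_cases j
      · exact absurd rfl hj
      · exact e1
      · exact e2
    · refine ⟨1, fun j hj => ?_⟩
      fin_cases j
      · exact e1.symm
      · exact absurd rfl hj
      · exact e2
    · refine ⟨2, fun j hj => ?_⟩
      fin_cases j
      · exact e1.symm
      · exact e2.symm
      · exact absurd rfl hj
  have hx := h.centre hT hle hs hst
  refine ⟨k, ?_⟩
  rcases h.ab_or hT hle hs hst hx with hb | hL
  · rcases h.xL_or hT hle hs hx hb with hL | hL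
    · exact hL
    · exact ((hv k).not_below hT hle hs hx hb hL (h.xb k).ne (h.aL' _ _) (hbM k) (hbw k)).elim
  · exact hL

end Pool.Agent.H17T3S
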