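import Pool.Agent.helper17.T3S.Tree

/-!
# The prism lemma
-/

namespace Pool.Agent.H17T3S

open SimpleGraph

variable {V : Type*} {G T : SimpleGraph V}

/-- three vertices `d0, d1, d2` forming a triangle, matched to `a0, a1, a2`, with no other
neighbours -/
structure Prism (G : SimpleGraph V) (a0 a1 a2 d0 d1 d2 : V) : Prop where
  na : a0 ≠ a1 ∧ a0 ≠ a2 ∧ a1 ≠ a2
  nd : d0 ≠ d1 ∧ d0 ≠ d2 ∧ d1 ≠ d2
  nad : (a0 ≠ d0 ∧ a0 ≠ d1 ∧ a0 ≠ d2) ∧ (a1 ≠ d0 ∧ a1 ≠ d1 ∧ a1 ≠ d2) ∧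
    (a2 ≠ d0 ∧ a2 ≠ d1 ∧ a2 ≠ d2)
  aa : G.Adj a0 a1 ∧ G.Adj a0 a2 ∧ G.Adj a1 a2
  dd : G.Adj d0 d1 ∧ G.Adj d0 d2 ∧ G.Adj d1 d2
  ad : G.Adj a0 d0 ∧ G.Adj a1 d1 ∧ G.Adj a2 d2
  n0 : ∀ y, G.Adj d0 y → y = a0 ∨ y = d1 ∨ y = d2
  n1 : ∀ y, G.Adj d1 y → y = a1 ∨ y = d0 ∨ y = d2
  n2 : ∀ y, G.Adj d2 y → y = a2 ∨ y = d0 ∨ y = d1

namespace Prism

variable {a0 a1 a2 d0 d1 d2 : V}

theorem rot (h : Prism G a0 a1 a2 d0 d1 d2) : Prism G a1 a2 a0 d1 d2 d0 where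
  na := ⟨h.na.2.2, h.na.1.symm, h.na.2.1.symm⟩
  nd := ⟨h.nd.2.2, h.nd.1.symm, h.nd.2.1.symm⟩
  nad := by
    obtain ⟨⟨h1, h2, h3⟩, ⟨h4, h5, h6⟩, h7, h8, h9⟩ := h.nad
    exact ⟨⟨h5, h6, h4⟩, ⟨h8, h9, h7⟩, h2, h3, h1⟩
  aa := ⟨h.aa.2.2, h.aa.1.symm, h.aa.2.1.symm⟩
  dd := ⟨h.dd.2.2, h.dd.1.symm, h.dd.2.1.symm⟩
  ad := ⟨h.ad.2.1, h.ad.2.2, h.ad.1⟩
  n0 := fun y hy => by have := h.n1 y hy; tauto
  n1 := fun y hy => by have := h.n2 y hy; tauto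
  n2 := fun y hy => by have := h.n0 y hy; tauto

theorem swp (h : Prism G a0 a1 a2 d0 d1 d2) : Prism G a1 a0 a2 d1 d0 d2 where
  na := ⟨h.na.1.symm, h.na.2.2, h.na.2.1⟩
  nd := ⟨h.nd.1.symm, h.nd.2.2, h.nd.2.1⟩
  nad := by
    obtain ⟨⟨h1, h2, h3⟩, ⟨h4, h5, h6⟩, h7, h8, h9⟩ := h.nad
    exact ⟨⟨h5, h4, h6⟩, ⟨h2, h1, h3⟩, h8, h7, h9⟩
  aa := ⟨h.aa.1.symm, h.aa.2.2, h.aa.2.1⟩
  dd := ⟨h.dd.1.symm, h.dd.2.2, h.dd.2.1⟩
  ad := ⟨h.ad.2.1, h.ad.1, h.ad.2.2⟩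
  n0 := fun y hy => by have := h.n1 y hy; tauto
  n1 := fun y hy => by have := h.n0 y hy; tauto
  n2 := fun y hy => by have := h.n2 y hy; tauto

/-- the possibilities for the edge `d0 d1` -/
theorem e1 (h : Prism G a0 a1 a2 d0 d1 d2) (hT : T.IsTree) (hle : T ≤ G)
    (hs : ∀ u v, G.Adj u v → T.dist u v ≤ 3) :
    T.Adj d0 d1 ∨ (T.Adj d0 d2 ∧ T.Adj d1 d2) ∨ (T.Adj a0 d0 ∧ T.Adj a0 a1 ∧ T.Adj a1 d1) := by
  obtain ⟨⟨h1, h2, h3⟩, ⟨h4, h5, h6⟩, h7, h8, h9⟩ := h.nad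
  obtain ⟨k1, k2, k3⟩ := h.nd
  rcases le_three hT (hs _ _ h.dd.1) k1 with e | ⟨y, e1, e2⟩ | ⟨y, z, e1, e2, e3, m1, m2⟩
  · exact Or.inl e
  · rcases h.n0 y (hle e1) with rfl | rfl | rfl
    · rcases h.n1 _ (hle e2.symm) with f | f | f
      · exact absurd f h.na.1
      · exact absurd f h1
      · exact absurd f h3
    · exact absurd rfl e2.ne
    · exact Or.inr (Or.inl ⟨e1, e2.symm⟩)
  · rcases h.n0 y (hle e1) with rfl | rfl | rfl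
    · rcases h.n1 z (hle e3.symm) with rfl | rfl | rfl
      · exact Or.inr (Or.inr ⟨e1.symm, e2, e3⟩)
      · exact absurd rfl m1
      · rcases h.n2 _ (hle e2.symm) with f | f | f
        · exact absurd f h.na.2.1
        · exact absurd f h1
        · exact absurd f h2
    · exact absurd rfl m2
    · rcases h.n1 z (hle e3.symm) with rfl | rfl | rfl
      · rcases h.n2 _ (hle e2) with f | f | f
        · exact absurd f h.na.2.2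
        · exact absurd f h4
        · exact absurd f h5
      · exact absurd rfl m1
      · exact absurd rfl e2.ne

/-- the possibilities for the edge `a0 d0` -/
theorem e2 (h : Prism G a0 a1 a2 d0 d1 d2) (hT : T.IsTree) (hle : T ≤ G)
    (hs : ∀ u v, G.Adj u v → T.dist u v ≤ 3) :
    T.Adj a0 d0 ∨ (T.Adj a0 a1 ∧ T.Adj a1 d1 ∧ T.Adj d0 d1) ∨
      (T.Adj a0 a2 ∧ T.Adj a2 d2 ∧ T.Adj d0 d2) := by
  obtain ⟨⟨h1, h2, h3⟩, ⟨h4, h5, h6⟩, h7, h8, h9⟩ := h.nad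
  obtain ⟨k1, k2, k3⟩ := h.nd
  rcases le_three hT (hs _ _ h.ad.1) h1 with e | ⟨y, e1, e2⟩ | ⟨y, z, e1, e2, e3, m1, m2⟩
  · exact Or.inl e
  · rcases h.n0 y (hle e2.symm) with rfl | rfl | rfl
    · exact absurd rfl e1.ne
    · rcases h.n1 _ (hle e1.symm) with f | f | f
      · exact absurd f h.na.1
      · exact absurd f h1
      · exact absurd f h3
    · rcases h.n2 _ (hle e1.symm) with f | f | f
      · exact absurd f h.na.2.1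
      · exact absurd f h1
      · exact absurd f h2
  · rcases h.n0 z (hle e3.symm) with rfl | rfl | rfl
    · exact absurd rfl m1
    · rcases h.n1 y (hle e2.symm) with rfl | rfl | rfl
      · exact Or.inr (Or.inl ⟨e1, e2, e3.symm⟩)
      · exact absurd rfl m2
      · rcases h.n2 _ (hle e1.symm) with f | f | f
        · exact absurd f h.na.2.1
        · exact absurd f h1
        · exact absurd f h2
    · rcases h.n2 y (hle e2.symm) with rfl | rfl | rfl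
      · exact Or.inr (Or.inr ⟨e1, e2, e3.symm⟩)
      · exact absurd rfl m2
      · rcases h.n1 _ (hle e1.symm) with f | f | f
        · exact absurd f h.na.1
        · exact absurd f h1
        · exact absurd f h3

/-- the forbidden paths for the ordered pair `0, 1` -/
theorem e3 (h : Prism G a0 a1 a2 d0 d1 d2) (hT : T.IsTree)
    (hs : ∀ u v, G.Adj u v → T.dist u v ≤ 3) :
    ¬ (T.Adj a0 d0 ∧ T.Adj d0 d2 ∧ T.Adj d1 d2 ∧ T.Adj a1 d1) ∧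
    ¬ (T.Adj a0 d0 ∧ T.Adj d0 d2 ∧ T.Adj a2 d2 ∧ T.Adj a1 a2) ∧
    ¬ (T.Adj d0 d2 ∧ T.Adj a2 d2 ∧ T.Adj a1 a2 ∧ T.Adj a1 d1) := by
  obtain ⟨⟨h1, h2, h3⟩, ⟨h4, h5, h6⟩, h7, h8, h9⟩ := h.nad
  obtain ⟨k1, k2, k3⟩ := h.nd
  refine ⟨?_, ?_, ?_⟩
  · rintro ⟨f1, f2, f3, f4⟩
    have := dist4 hT f1 f2 f3.symm f4.symm h3 k1 h6.symm
    have := hs _ _ h.aa.1
    omega
  · rintro ⟨f1, f2, f3, f4⟩
    have := dist4 hT f1 f2 f3.symm f4.symm h3 h7.symm h6.symm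
    have := hs _ _ h.aa.1
    omega
  · rintro ⟨f1, f2, f3, f4⟩
    have := dist4 hT f1 f2.symm f3.symm f4 h7.symm h6.symm h8
    have := hs _ _ h.dd.1
    omega

/-- the constraints, as a Boolean function -/
def chk (α01 α02 α12 δ01 δ02 δ12 m0 m1 m2 : Bool) : Bool :=
  (δ01 || ((δ02 && δ12) || (m0 && (α01 && m1)))) &&
  ((δ12 || ((δ01 && δ02) || (m1 && (α12 && m2)))) &&
  ((δ02 || ((δ12 && δ01) || (m2 && (α02 && m0)))) &&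
  ((m0 || ((α01 && (m1 && δ01)) || (α02 && (m2 && δ02)))) &&
  ((m1 || ((α12 && (m2 && δ12)) || (α01 && (m0 && δ01)))) &&
  ((m2 || ((α02 && (m0 && δ02)) || (α12 && (m1 && δ12)))) &&
  ((!(m0 && (δ02 && (δ12 && m1)))) && ((!(m0 && (δ02 && (m2 && α12)))) &&
  ((!(δ02 && (m2 && (α12 && m1)))) &&
  ((!(m1 && (δ01 && (δ02 && m2)))) && ((!(m1 && (δ01 && (m0 && α02)))) &&
  ((!(δ01 && (m0 && (α02 && m2)))) &&
  ((!(m2 && (δ12 && (δ01 && m0)))) && ((!(m2 && (δ12 && (m1 && α01)))) &&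
  ((!(δ12 && (m1 && (α01 && m0)))) &&
  ((!(m1 && (δ12 && (m2 && α02)))) &&
  ((!(δ12 && (m2 && (α02 && m0)))) &&
  ((!(m2 && (δ02 && (m0 && α01)))) &&
  ((!(δ02 && (m0 && (α01 && m1)))) &&
  ((!(m0 && (δ01 && (m1 && α12)))) &&
  ((!(δ01 && (m1 && (α12 && m2)))) &&
  ((!(α01 && (α02 && α12))) && ((!(δ01 && (δ02 && δ12))) &&
  ((!(m0 && (m1 && (α01 && δ01)))) && ((!(m1 && (m2 && (α12 && δ12)))) &&
  (!(m0 && (m2 && (α02 && δ02))))))))))))))))))))))))))))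

theorem bool_aux : ∀ α01 α02 α12 δ01 δ02 δ12 m0 m1 m2 : Bool,
    chk α01 α02 α12 δ01 δ02 δ12 m0 m1 m2 = true →
    ((α01 && α02) || ((α01 && α12) || (α02 && α12))) = true := by
  decide

theorem neg_conv {b : Bool} {p : Prop} (h : b = true → p) (hp : ¬ p) : (!b) = true := by
  cases b
  · rfl
  · exact absurd (h rfl) hp

theorem prop_aux {A01 A02 A12 D01 D02 D12 M0 M1 M2 : Prop}
    (p1 : D01 ∨ (D02 ∧ D12) ∨ (M0 ∧ A01 ∧ M1))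
    (p2 : D12 ∨ (D01 ∧ D02) ∨ (M1 ∧ A12 ∧ M2))
    (p3 : D02 ∨ (D12 ∧ D01) ∨ (M2 ∧ A02 ∧ M0))
    (q1 : M0 ∨ (A01 ∧ M1 ∧ D01) ∨ (A02 ∧ M2 ∧ D02))
    (q2 : M1 ∨ (A12 ∧ M2 ∧ D12) ∨ (A01 ∧ M0 ∧ D01))
    (q3 : M2 ∨ (A02 ∧ M0 ∧ D02) ∨ (A12 ∧ M1 ∧ D12))
    (r1 : ¬ (M0 ∧ D02 ∧ D12 ∧ M1)) (r2 : ¬ (M0 ∧ D02 ∧ M2 ∧ A12)) (r3 : ¬ (D02 ∧ M2 ∧ A12 ∧ M1))
    (r4 : ¬ (M1 ∧ D01 ∧ D02 ∧ M2)) (r5 : ¬ (M1 ∧ D01 ∧ M0 ∧ A02)) (r6 : ¬ (D01 ∧ M0 ∧ A02 ∧ M2))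
    (r7 : ¬ (M2 ∧ D12 ∧ D01 ∧ M0)) (r8 : ¬ (M2 ∧ D12 ∧ M1 ∧ A01)) (r9 : ¬ (D12 ∧ M1 ∧ A01 ∧ M0))
    (s2 : ¬ (M1 ∧ D12 ∧ M2 ∧ A02)) (s3 : ¬ (D12 ∧ M2 ∧ A02 ∧ M0))
    (s5 : ¬ (M2 ∧ D02 ∧ M0 ∧ A01)) (s6 : ¬ (D02 ∧ M0 ∧ A01 ∧ M1))
    (s8 : ¬ (M0 ∧ D01 ∧ M1 ∧ A12)) (s9 : ¬ (D01 ∧ M1 ∧ A12 ∧ M2))
    (t1 : ¬ (A01 ∧ A02 ∧ A12)) (t2 : ¬ (D01 ∧ D02 ∧ D12))
    (t3 : ¬ (M0 ∧ M1 ∧ A01 ∧ D01)) (t4 : ¬ (M1 ∧ M2 ∧ A12 ∧ D12))
    (t5 : ¬ (M0 ∧ M2 ∧ A02 ∧ D02)) :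
    (A01 ∧ A02) ∨ (A01 ∧ A12) ∨ (A02 ∧ A12) := by
  classical
  have key := bool_aux (decide A01) (decide A02) (decide A12) (decide D01) (decide D02)
    (decide D12) (decide M0) (decide M1) (decide M2)
  have hc : chk (decide A01) (decide A02) (decide A12) (decide D01) (decide D02)
      (decide D12) (decide M0) (decide M1) (decide M2) = true := by
    unfold chk
    refine Bool.and_eq_true_iff.2 ⟨?_, ?_⟩
    · simpa using p1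
    refine Bool.and_eq_true_iff.2 ⟨?_, ?_⟩
    · simpa using p2
    refine Bool.and_eq_true_iff.2 ⟨?_, ?_⟩
    · simpa using p3
    refine Bool.and_eq_true_iff.2 ⟨?_, ?_⟩
    · simpa using q1
    refine Bool.and_eq_true_iff.2 ⟨?_, ?_⟩
    · simpa using q2
    refine Bool.and_eq_true_iff.2 ⟨?_, ?_⟩
    · simpa using q3
    repeat' refine Bool.and_eq_true_iff.2 ⟨?_, ?_⟩
    · exact neg_conv (by simp only [Bool.and_eq_true, decide_eq_true_eq]; exact id) r1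
    · exact neg_conv (by simp only [Bool.and_eq_true, decide_eq_true_eq]; exact id) r2
    · exact neg_conv (by simp only [Bool.and_eq_true, decide_eq_true_eq]; exact id) r3
    · exact neg_conv (by simp only [Bool.and_eq_true, decide_eq_true_eq]; exact id) r4
    · exact neg_conv (by simp only [Bool.and_eq_true, decide_eq_true_eq]; exact id) r5
    · exact neg_conv (by simp only [Bool.and_eq_true, decide_eq_true_eq]; exact id) r6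
    · exact neg_conv (by simp only [Bool.and_eq_true, decide_eq_true_eq]; exact id) r7
    · exact neg_conv (by simp only [Bool.and_eq_true, decide_eq_true_eq]; exact id) r8
    · exact neg_conv (by simp only [Bool.and_eq_true, decide_eq_true_eq]; exact id) r9
    · exact neg_conv (by simp only [Bool.and_eq_true, decide_eq_true_eq]; exact id) s2
    · exact neg_conv (by simp only [Bool.and_eq_true, decide_eq_true_eq]; exact id) s3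
    · exact neg_conv (by simp only [Bool.and_eq_true, decide_eq_true_eq]; exact id) s5
    · exact neg_conv (by simp only [Bool.and_eq_true, decide_eq_true_eq]; exact id) s6
    · exact neg_conv (by simp only [Bool.and_eq_true, decide_eq_true_eq]; exact id) s8
    · exact neg_conv (by simp only [Bool.and_eq_true, decide_eq_true_eq]; exact id) s9
    · exact neg_conv (by simp only [Bool.and_eq_true, decide_eq_true_eq]; exact id) t1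
    · exact neg_conv (by simp only [Bool.and_eq_true, decide_eq_true_eq]; exact id) t2
    · exact neg_conv (by simp only [Bool.and_eq_true, decide_eq_true_eq]; exact id) t3
    · exact neg_conv (by simp only [Bool.and_eq_true, decide_eq_true_eq]; exact id) t4
    · exact neg_conv (by simp only [Bool.and_eq_true, decide_eq_true_eq]; exact id) t5
  have k := key hc
  simpa using k

/-- **Prism lemma.** In a tree 3-spanner the triangle `a0 a1 a2` is spanned by a star. -/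
theorem star (h : Prism G a0 a1 a2 d0 d1 d2) (hT : T.IsTree) (hle : T ≤ G)
    (hs : ∀ u v, G.Adj u v → T.dist u v ≤ 3) :
    (T.Adj a0 a1 ∧ T.Adj a0 a2) ∨ (T.Adj a0 a1 ∧ T.Adj a1 a2) ∨ (T.Adj a0 a2 ∧ T.Adj a1 a2) := by
  classical
  have c1 : T.Adj a1 a0 ↔ T.Adj a0 a1 := T.adj_comm _ _
  have c2 : T.Adj a2 a0 ↔ T.Adj a0 a2 := T.adj_comm _ _
  have c3 : T.Adj a2 a1 ↔ T.Adj a1 a2 := T.adj_comm _ _
  have c4 : T.Adj d1 d0 ↔ T.Adj d0 d1 := T.adj_comm _ _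
  have c5 : T.Adj d2 d0 ↔ T.Adj d0 d2 := T.adj_comm _ _
  have c6 : T.Adj d2 d1 ↔ T.Adj d1 d2 := T.adj_comm _ _
  have hr := h.rot
  have hrr := h.rot.rot
  have p1 := h.e1 hT hle hs
  have p2 := hr.e1 hT hle hs
  have p3 := hrr.e1 hT hle hs
  have q1 := h.e2 hT hle hs
  have q2 := hr.e2 hT hle hs
  have q3 := hrr.e2 hT hle hs
  obtain ⟨r1, r2, r3⟩ := h.e3 hT hs
  obtain ⟨r4, r5, r6⟩ := hr.e3 hT hs
  obtain ⟨r7, r8, r9⟩ := hrr.e3 hT hs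
  obtain ⟨s1, s2, s3⟩ := h.swp.e3 hT hs
  obtain ⟨s4, s5, s6⟩ := hr.swp.e3 hT hs
  obtain ⟨s7, s8, s9⟩ := hrr.swp.e3 hT hs
  have t1 : ¬ (T.Adj a0 a1 ∧ T.Adj a0 a2 ∧ T.Adj a1 a2) := fun ⟨f1, f2, f3⟩ => no3 hT f1 f3 f2
  have t2 : ¬ (T.Adj d0 d1 ∧ T.Adj d0 d2 ∧ T.Adj d1 d2) := fun ⟨f1, f2, f3⟩ => no3 hT f1 f3 f2
  obtain ⟨⟨h1, h2, h3⟩, ⟨h4, h5, h6⟩, h7, h8, h9⟩ := h.nad
  have t3 : ¬ (T.Adj a0 d0 ∧ T.Adj a1 d1 ∧ T.Adj a0 a1 ∧ T.Adj d0 d1) := fun ⟨f1, f2, f3, f4⟩ => by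
    have := dist3 hT f1 f4 f2.symm h2 h4.symm
    rw [dist_adj f3] at this
    omega
  have t4 : ¬ (T.Adj a1 d1 ∧ T.Adj a2 d2 ∧ T.Adj a1 a2 ∧ T.Adj d1 d2) := fun ⟨f1, f2, f3, f4⟩ => by
    have := dist3 hT f1 f4 f2.symm h6 h8.symm
    rw [dist_adj f3] at this
    omega
  have t5 : ¬ (T.Adj a0 d0 ∧ T.Adj a2 d2 ∧ T.Adj a0 a2 ∧ T.Adj d0 d2) := fun ⟨f1, f2, f3, f4⟩ => by
    have := dist3 hT f1 f4 f2.symm h3 h7.symm
    rw [dist_adj f3] at this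
    omega
  simp only [c1, c2, c3, c4, c5, c6] at p1 p2 p3 q1 q2 q3 r1 r2 r3 r4 r5 r6 r7 r8 r9 s1 s2 s3 s4 s5 s6 s7 s8 s9
  exact prop_aux p1 p2 p3 q1 q2 q3 r1 r2 r3 r4 r5 r6 r7 r8 r9 s2 s3 s5 s6 s8 s9 t1 t2 t3 t4 t5

end Prism

end Pool.Agent.H17T3S
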