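import Pool.Agent.helper17.T3S.Defs
import Pool.Agent.helper17.T3S.Clause

/-!
# Tree spanners through edges; trees given by parents
-/

namespace Pool.Agent.H17T3S

open SimpleGraph

variable {V : Type*}

theorem dist_le_of_walk {t : ℕ} {G T : SimpleGraph V} (hT : T.Connected)
    (h : ∀ u v, G.Adj u v → T.dist u v ≤ t) {u v : V} (p : G.Walk u v) :
    T.dist u v ≤ t * p.length := by
  induction p with
  | nil => simp
  | cons hadj p ih =>
    rename_i u w v
    have h1 := hT.dist_triangle (u := u) (v := w) (w := v)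
    have h2 := h _ _ hadj
    rw [Walk.length_cons, Nat.mul_succ]
    omega

theorem isTreeSpanner_iff {t : ℕ} {G T : SimpleGraph V} (hG : G.Connected) :
    IsTreeSpanner t G T ↔ T ≤ G ∧ T.IsTree ∧ ∀ u v, G.Adj u v → T.dist u v ≤ t := by
  constructor
  · rintro ⟨h1, h2, h3⟩
    refine ⟨h1, h2, fun u v huv => ?_⟩
    have := h3 u v
    rw [dist_eq_one_iff_adj.2 huv] at this
    omega
  · rintro ⟨h1, h2, h3⟩
    refine ⟨h1, h2, fun u v => ?_⟩
    obtain ⟨p, hp⟩ := hG.exists_walk_length_eq_dist u v
    rw [← hp]
    exact dist_le_of_walk h2.1 h3 p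

/-- the graph whose edges join the vertices other than `r` to their parents -/
def parentGraph (r : V) (par : V → V) : SimpleGraph V where
  Adj u v := u ≠ v ∧ ((u ≠ r ∧ par u = v) ∨ (v ≠ r ∧ par v = u))
  symm := ⟨fun u v h => ⟨h.1.symm, h.2.symm⟩⟩
  loopless := ⟨fun u h => h.1 rfl⟩

theorem parentGraph_adj {r : V} {par : V → V} {rk : V → ℕ}
    (h : ∀ v, v ≠ r → rk (par v) < rk v) {v : V} (hv : v ≠ r) :
    (parentGraph r par).Adj v (par v) := by
  refine ⟨fun e => ?_, Or.inl ⟨hv, rfl⟩⟩
  have := h v hv
  rw [← e] at this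
  exact lt_irrefl _ this

theorem isTree_of_parent [Finite V] (r : V) (par : V → V) (rk : V → ℕ)
    (h : ∀ v, v ≠ r → rk (par v) < rk v) : (parentGraph r par).IsTree := by
  classical
  have hreach : ∀ n v, rk v = n → (parentGraph r par).Reachable v r := by
    intro n
    induction n using Nat.strong_induction_on with
    | _ n ih =>
      intro v hv
      by_cases hr : v = r
      · subst hr; exact Reachable.refl _
      · have h1 := h v hr
        exact (parentGraph_adj h hr).reachable.trans (ih _ (hv ▸ h1) _ rfl)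
  have hconn : (parentGraph r par).Connected := by
    haveI : Nonempty V := ⟨r⟩
    exact ⟨fun u v => (hreach _ u rfl).trans (hreach _ v rfl).symm⟩
  rw [isTree_iff_connected_and_card]
  refine ⟨hconn, le_antisymm ?_ hconn.card_vert_le_card_edgeSet_add_one⟩
  let f : {v // v ≠ r} → (parentGraph r par).edgeSet := fun v =>
    ⟨s(v.1, par v.1), parentGraph_adj h v.2⟩
  have hf : Function.Surjective f := by
    rintro ⟨e, he⟩
    induction e using Sym2.ind with
    | _ u v =>
      rcases (show (parentGraph r par).Adj u v from he).2 with ⟨h1, h2⟩ | ⟨h1, h2⟩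
      · exact ⟨⟨u, h1⟩, Subtype.ext (by simp [f, h2])⟩
      · refine ⟨⟨v, h1⟩, Subtype.ext ?_⟩
        simp only [f, h2]
        exact Sym2.eq_swap
  have h1 := Nat.card_le_card_of_surjective f hf
  have h2 : Nat.card {v // v ≠ r} + 1 = Nat.card V := by
    have : Nat.card {v : V // v = r} = 1 := by
      rw [Nat.card_eq_one_iff_unique]
      exact ⟨⟨fun a b => Subtype.ext (a.2.trans b.2.symm)⟩, ⟨⟨r, rfl⟩⟩⟩
    rw [← this, ← Nat.card_sum]
    refine Nat.card_congr ?_
    refine (Equiv.sumComm _ _).trans ?_
    exact Equiv.sumCompl (fun v => v = r)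
  omega

/-- the distance of two vertices with a common ancestor -/
theorem dist_le_of_iterate {r : V} {par : V → V} {T : SimpleGraph V} (hT : T.Connected)
    (hpar : ∀ v, par v = v ∨ T.Adj v (par v)) {u v : V} (i j : ℕ)
    (h : par^[i] u = par^[j] v) : T.dist u v ≤ i + j := by
  have key : ∀ (i : ℕ) (u : V), T.dist u (par^[i] u) ≤ i := by
    intro i
    induction i with
    | zero => intro u; simp
    | succ i ih =>
      intro u
      rw [Function.iterate_succ_apply]
      have h1 := hT.dist_triangle (u := u) (v := par u) (w := par^[i] (par u))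
      have h2 := ih (par u)
      have h3 : T.dist u (par u) ≤ 1 := by
        rcases hpar u with e | e
        · rw [e]; simp
        · rw [dist_eq_one_iff_adj.2 e]
      omega
  have h1 := hT.dist_triangle (u := u) (v := par^[i] u) (w := v)
  have h2 := key i u
  have h3 := key j v
  rw [← h, dist_comm] at h3
  omega

end Pool.Agent.H17T3S
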