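import Mathlib

/-!
# Distances in trees and tree 3-spanners
-/

namespace Pool.Agent.H17T3S

open SimpleGraph

variable {V : Type*} {G T : SimpleGraph V}

theorem penult_unique (hT : T.IsTree) {x u v w : V} (hu : T.Adj u v) (hw : T.Adj w v)
    (h1 : T.dist x v = T.dist x u + 1) (h2 : T.dist x v = T.dist x w + 1) : u = w := by
  classical
  obtain ⟨p, hp, hpl⟩ := hT.1.exists_path_of_dist x u
  obtain ⟨q, hq, hql⟩ := hT.1.exists_path_of_dist x w
  have hp' : (p.concat hu).IsPath := Walk.isPath_of_length_eq_dist _ (by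
    rw [Walk.length_concat, hpl, h1])
  have hq' : (q.concat hw).IsPath := Walk.isPath_of_length_eq_dist _ (by
    rw [Walk.length_concat, hql, h2])
  have h := (hT.2.subsingleton_path _ _).elim (⟨_, hp'⟩ : T.Path x v) ⟨_, hq'⟩
  have h' : p.concat hu = q.concat hw := congrArg Subtype.val h
  have h3 := congrArg Walk.penultimate h'
  simpa using h3

theorem dist_step (hT : T.IsTree) {x u v w : V} (hu : T.Adj u v) (hw : T.Adj v w) (hne : u ≠ w)
    (h1 : T.dist x v = T.dist x u + 1) : T.dist x w = T.dist x v + 1 := by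
  rcases hT.dist_eq_dist_add_one_of_adj x hw with h | h
  · exact absurd (penult_unique hT hu hw.symm h1 h) hne
  · exact h

theorem dist_adj {u v : V} (h : T.Adj u v) : T.dist u v = 1 := dist_eq_one_iff_adj.2 h

theorem dist2 (hT : T.IsTree) {a b c : V} (h1 : T.Adj a b) (h2 : T.Adj b c) (n1 : a ≠ c) :
    T.dist a c = 2 := by
  have := dist_step (x := a) hT h1 h2 n1 (by rw [dist_adj h1, dist_self])
  rw [this, dist_adj h1]

theorem dist3 (hT : T.IsTree) {a b c d : V} (h1 : T.Adj a b) (h2 : T.Adj b c) (h3 : T.Adj c d)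
    (n1 : a ≠ c) (n2 : b ≠ d) : T.dist a d = 3 := by
  have e := dist2 hT h1 h2 n1
  have := dist_step (x := a) hT h2 h3 n2 (by rw [e, dist_adj h1])
  rw [this, e]

theorem dist4 (hT : T.IsTree) {a b c d e : V} (h1 : T.Adj a b) (h2 : T.Adj b c) (h3 : T.Adj c d)
    (h4 : T.Adj d e) (n1 : a ≠ c) (n2 : b ≠ d) (n3 : c ≠ e) : T.dist a e = 4 := by
  have e1 := dist2 hT h1 h2 n1
  have e2 := dist3 hT h1 h2 h3 n1 n2
  have := dist_step (x := a) hT h3 h4 n3 (by rw [e1, e2])
  rw [this, e2]

theorem dist5 (hT : T.IsTree) {a b c d e f : V} (h1 : T.Adj a b) (h2 : T.Adj b c)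
    (h3 : T.Adj c d) (h4 : T.Adj d e) (h5 : T.Adj e f) (n1 : a ≠ c) (n2 : b ≠ d) (n3 : c ≠ e)
    (n4 : d ≠ f) : T.dist a f = 5 := by
  have e2 := dist3 hT h1 h2 h3 n1 n2
  have e3 := dist4 hT h1 h2 h3 h4 n1 n2 n3
  have := dist_step (x := a) hT h4 h5 n4 (by rw [e2, e3])
  rw [this, e3]

/-- vertices at distance at most three -/
theorem le_three (hT : T.IsTree) {u v : V} (h : T.dist u v ≤ 3) (hne : u ≠ v) :
    T.Adj u v ∨ (∃ y, T.Adj u y ∧ T.Adj y v) ∨
      (∃ y z, T.Adj u y ∧ T.Adj y z ∧ T.Adj z v ∧ u ≠ z ∧ y ≠ v) := by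
  obtain ⟨p, hp, hpl⟩ := hT.1.exists_path_of_dist u v
  rw [← hpl] at h
  cases p with
  | nil => exact absurd rfl hne
  | cons h1 p =>
    cases p with
    | nil => exact Or.inl h1
    | cons h2 p =>
      cases p with
      | nil => exact Or.inr (Or.inl ⟨_, h1, h2⟩)
      | cons h3 p =>
        cases p with
        | nil =>
          right; right
          refine ⟨_, _, h1, h2, h3, ?_, ?_⟩
          · rintro rfl
            simp at hp
          · rintro rfl
            simp at hp
        | cons h4 p =>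
          simp only [Walk.length_cons] at h
          omega

/-- no triangle -/
theorem no3 (hT : T.IsTree) {a b c : V} (h1 : T.Adj a b) (h2 : T.Adj b c) (h3 : T.Adj a c) :
    False := by
  have := dist2 hT h1 h2 h3.ne
  rw [dist_adj h3] at this
  omega

end Pool.Agent.H17T3S
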