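import Pool.Agent.helper17.T3S.Spanner

/-!
# The vertices of the graph of a formula; connectedness
-/

namespace Pool.Agent.H17T3S

open SimpleGraph

/-- the names of the vertices of the graph of `φ` -/
def Nm.In (φ : CNF3) : Nm → Prop
  | .x => True
  | .L l => l.1 ∈ vars φ
  | .W l => l.1 ∈ vars φ
  | .a c _ => c ∈ φ
  | .d c _ => c ∈ φ
  | .b c _ => c ∈ φ
  | .t c _ => c ∈ φ

theorem mem_verts {φ : CNF3} {v : Nm} : v ∈ verts φ ↔ v.In φ := by
  have h3 : ∀ i : Fin 3, i = 0 ∨ i = 1 ∨ i = 2 := by decide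
  unfold verts
  rw [List.mem_cons, List.mem_append, List.mem_flatMap, List.mem_flatMap]
  cases v with
  | x => simp [Nm.In]
  | L l =>
    obtain ⟨z, s⟩ := l
    cases s <;> simp [Nm.In]
  | W l =>
    obtain ⟨z, s⟩ := l
    cases s <;> simp [Nm.In]
  | a c i =>
    rcases h3 i with rfl | rfl | rfl <;> simp [Nm.In]
  | d c i =>
    rcases h3 i with rfl | rfl | rfl <;> simp [Nm.In]
  | b c i =>
    rcases h3 i with rfl | rfl | rfl <;> simp [Nm.In]
  | t c i =>
    rcases h3 i with rfl | rfl | rfl <;> simp [Nm.In]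

theorem nodup_verts (φ : CNF3) : (verts φ).Nodup := by
  unfold verts
  rw [List.nodup_cons]
  constructor
  · simp
  · rw [List.nodup_append]
    refine ⟨?_, ?_, ?_⟩
    · rw [List.nodup_flatMap]
      refine ⟨fun z _ => by simp, ?_⟩
      refine List.Pairwise.imp ?_ (List.nodup_dedup _)
      intro z z' hz
      simp only [Function.onFun, List.disjoint_left]
      intro v hv hv'
      simp only [List.mem_cons, List.not_mem_nil, or_false] at hv hv'
      rcases hv with rfl | rfl | rfl | rfl <;> simp [hz] at hv'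
    · rw [List.nodup_flatMap]
      refine ⟨fun z _ => by simp, ?_⟩
      refine List.Pairwise.imp ?_ (List.nodup_dedup _)
      intro z z' hz
      simp only [Function.onFun, List.disjoint_left]
      intro v hv hv'
      simp only [List.mem_cons, List.not_mem_nil, or_false] at hv hv'
      rcases hv with rfl | rfl | rfl | rfl | rfl | rfl | rfl | rfl | rfl | rfl | rfl | rfl <;>
        simp [hz] at hv'
    · intro v hv w hw
      rw [List.mem_flatMap] at hv hw
      obtain ⟨z, _, hv⟩ := hv
      obtain ⟨c, _, hw⟩ := hw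
      rintro rfl
      simp only [List.mem_cons, List.not_mem_nil, or_false] at hv hw
      rcases hv with rfl | rfl | rfl | rfl <;> simp at hw

theorem lit_mem {φ : CNF3} {c : Cl} (hc : c ∈ φ) (i : Fin 3) : (c.lit i).1 ∈ vars φ := by
  rw [vars, List.mem_dedup, List.mem_flatMap]
  refine ⟨c, hc, ?_⟩
  unfold Cl.lit
  split_ifs <;> simp

section
variable {φ : CNF3}

/-- the name of a vertex -/
abbrev nm (φ : CNF3) (i : Fin (verts φ).length) : Nm := (verts φ).get i

theorem nm_injective : Function.Injective (nm φ) := List.nodup_iff_injective_get.1 (nodup_verts φ)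

theorem nm_in (i : Fin (verts φ).length) : (nm φ i).In φ := mem_verts.1 (List.get_mem _ _)

/-- the graph of `φ` -/
abbrev GG (φ : CNF3) : SimpleGraph (Fin (verts φ).length) := NG.comap (verts φ).get

open Classical in
/-- the vertex with a given name -/
noncomputable def ix (φ : CNF3) (v : Nm) : Fin (verts φ).length :=
  if h : ∃ i, nm φ i = v then h.choose else ⟨0, by simp [verts]⟩

theorem nm_ix {v : Nm} (h : v.In φ) : nm φ (ix φ v) = v := by
  have h1 : ∃ i, nm φ i = v := List.mem_iff_get.1 (mem_verts.2 h)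
  unfold ix
  rw [dif_pos h1]
  exact h1.choose_spec

theorem ix_nm (i : Fin (verts φ).length) : ix φ (nm φ i) = i := nm_injective (nm_ix (nm_in i))

theorem eq_ix {v : Nm} {y : Fin (verts φ).length} (h : nm φ y = v) : y = ix φ v := by
  rw [← h, ix_nm]

theorem adj_nm {u v : Fin (verts φ).length} : (GG φ).Adj u v ↔ (nm φ u).adj (nm φ v) = true :=
  Iff.rfl

theorem adj_ix {u v : Nm} (hu : u.In φ) (hv : v.In φ) :
    (GG φ).Adj (ix φ u) (ix φ v) ↔ u.adj v = true := by
  rw [adj_nm, nm_ix hu, nm_ix hv]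

theorem ix_ne {u v : Nm} (hu : u.In φ) (hv : v.In φ) (h : u ≠ v) : ix φ u ≠ ix φ v := by
  intro e
  apply h
  rw [← nm_ix hu, ← nm_ix hv, e]

/-- the graph of a formula is connected -/
theorem connected (φ : CNF3) : (gr φ).2.Connected := by
  have hx : (Nm.x).In φ := trivial
  have h1 : ∀ u : Nm, u.In φ → Nm.x.adj u = true → (GG φ).Reachable (ix φ .x) (ix φ u) :=
    fun u hu h => ((adj_ix hx hu).2 h).reachable
  have h2 : ∀ u v : Nm, u.In φ → v.In φ → Nm.x.adj u = true → u.adj v = true →
      (GG φ).Reachable (ix φ .x) (ix φ v) :=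
    fun u v hu hv h h' => (h1 u hu h).trans ((adj_ix hu hv).2 h').reachable
  have key : ∀ v : Nm, v.In φ → (GG φ).Reachable (ix φ .x) (ix φ v) := by
    intro v hv
    cases v with
    | x => exact Reachable.refl _
    | L l => exact h1 _ hv (by simp [Nm.adj, Nm.arc])
    | W l => exact h2 (.L l) _ hv hv (by simp [Nm.adj, Nm.arc]) (by simp [Nm.adj, Nm.arc])
    | a c i => exact h1 _ hv (by simp [Nm.adj, Nm.arc])
    | d c i => exact h2 (.a c i) _ hv hv (by simp [Nm.adj, Nm.arc]) (by simp [Nm.adj, Nm.arc])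
    | b c i => exact h1 _ hv (by simp [Nm.adj, Nm.arc])
    | t c i => exact h2 (.b c i) _ hv hv (by simp [Nm.adj, Nm.arc]) (by simp [Nm.adj, Nm.arc])
  haveI : Nonempty (Fin (gr φ).1) := ⟨ix φ .x⟩
  refine ⟨fun u v => ?_⟩
  have e1 := key _ (nm_in (φ := φ) u)
  have e2 := key _ (nm_in (φ := φ) v)
  rw [ix_nm] at e1 e2
  exact e1.symm.trans e2

end

end Pool.Agent.H17T3S
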